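import Mathlib

set_option autoImplicit false

namespace Pool.Agent.MP_b9449f_co.H8

open Finset
open Classical in
/-- pipe travelling on row `a` just before column `j` -/
noncomputable def rowOf (E : ℕ → Prop) (a : ℕ) (s : ℕ → ℕ) : ℕ → ℕ
  | 0 => s a
  | j + 1 => if j ≤ a then s a else if E j ∨ s j < rowOf E a s j then s j else rowOf E a s j

open Classical in
/-- pipe travelling on column `j` just before row `a` -/
noncomputable def col (E : ℕ → ℕ → Prop) : ℕ → ℕ → ℕ
  | 0 => id
  | a + 1 => fun j =>
      if E a j ∨ col E a j < rowOf (E a) a (col E a) j then rowOf (E a) a (col E a) j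
      else col E a j

noncomputable def row (E : ℕ → ℕ → Prop) (a j : ℕ) : ℕ := rowOf (E a) a (col E a) j

def turn (E : ℕ → ℕ → Prop) (a j : ℕ) : Prop := E a j ∨ col E a j < row E a j

noncomputable def PP (E : ℕ → ℕ → Prop) (a b : ℕ) : Finset ℕ := (Ico a b).image (col E a)

variable (E : ℕ → ℕ → Prop)

lemma row_succ_self (a : ℕ) : row E a (a + 1) = col E a a := by
  simp [row, rowOf]

lemma row_succ_turn {a j : ℕ} (h : a < j) (ht : turn E a j) : row E a (j + 1) = col E a j := by
  have h' : ¬ j ≤ a := by omega
  have ht' : E a j ∨ col E a j < rowOf (E a) a (col E a) j := ht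
  simp only [row, rowOf, if_neg h', if_pos ht']

lemma row_succ_not {a j : ℕ} (h : a < j) (ht : ¬ turn E a j) : row E a (j + 1) = row E a j := by
  have h' : ¬ j ≤ a := by omega
  have ht' : ¬ (E a j ∨ col E a j < rowOf (E a) a (col E a) j) := ht
  simp only [row, rowOf, if_neg h', if_neg ht']

lemma col_succ_turn {a j : ℕ} (ht : turn E a j) : col E (a + 1) j = row E a j := by
  have ht' : E a j ∨ col E a j < rowOf (E a) a (col E a) j := ht
  simp only [row, col, if_pos ht']

lemma col_succ_not {a j : ℕ} (ht : ¬ turn E a j) : col E (a + 1) j = col E a j := by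
  have ht' : ¬ (E a j ∨ col E a j < rowOf (E a) a (col E a) j) := ht
  simp only [col, if_neg ht']

lemma PP_zero (b : ℕ) : PP E 0 b = range b := by
  ext x; simp [PP, col]

lemma PP_empty {a b : ℕ} (h : b ≤ a) : PP E a b = ∅ := by
  simp [PP, Ico_eq_empty_of_le h]

lemma PP_top {a b : ℕ} (h : a ≤ b) : PP E a (b + 1) = insert (col E a b) (PP E a b) := by
  simp only [PP, ← Finset.insert_Ico_right_eq_Ico_add_one h, image_insert]

lemma PP_left {a j : ℕ} (h : a < j) : PP E a j = insert (row E a j) (PP E (a + 1) j) := by
  induction j, h using Nat.le_induction with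
  | base =>
    rw [PP_top E le_rfl, PP_empty E le_rfl, PP_empty E le_rfl, row_succ_self]
  | succ j hj ih =>
    have hj' : a < j := hj
    rw [PP_top E hj'.le, ih, PP_top E hj]
    by_cases ht : turn E a j
    · rw [row_succ_turn E hj' ht, col_succ_turn E ht]
    · rw [row_succ_not E hj' ht, col_succ_not E ht, Finset.insert_comm]

lemma PP_card (a b : ℕ) : (PP E a b).card = b - a := by
  induction a generalizing b with
  | zero => simp [PP_zero]
  | succ a ih =>
    apply le_antisymm
    · exact card_image_le.trans (by simp)
    · by_cases h : a < b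
      · have h1 := ih b
        rw [PP_left E h] at h1
        have h2 := card_insert_le (row E a b) (PP E (a + 1) b)
        omega
      · omega

lemma row_notMem {a j : ℕ} (h : a < j) : row E a j ∉ PP E (a + 1) j := by
  intro hm
  have h1 := PP_card E a j
  rw [PP_left E h, insert_eq_of_mem hm, PP_card] at h1
  omega

lemma col_notMem {a b : ℕ} (h : a ≤ b) : col E a b ∉ PP E a b := by
  intro hm
  have h1 := PP_card E a (b + 1)
  rw [PP_top E h, insert_eq_of_mem hm, PP_card] at h1
  omega

lemma PP_mono {a a' b b' : ℕ} (ha : a' ≤ a) (hb : b ≤ b') : PP E a b ⊆ PP E a' b' := by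
  have h1 : PP E a b ⊆ PP E a b' := image_subset_image (Ico_subset_Ico le_rfl hb)
  refine h1.trans ?_
  induction a, ha using Nat.le_induction with
  | base => exact subset_rfl
  | succ a ha ih =>
    refine subset_trans ?_ (ih (image_subset_image (Ico_subset_Ico le_rfl hb)))
    by_cases h : a < b'
    · rw [PP_left E h]; exact subset_insert _ _
    · rw [PP_empty E (by omega)]; exact empty_subset _

lemma PP_turn {a j : ℕ} (h : a < j) (ht : turn E a j) : PP E (a + 1) (j + 1) = PP E a j := by
  rw [PP_top E h, col_succ_turn E ht, ← PP_left E h]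

lemma PP_not {a j : ℕ} (h : a < j) (ht : ¬ turn E a j) :
    PP E (a + 1) (j + 1) = insert (col E a j) (PP E (a + 1) j) := by
  rw [PP_top E h, col_succ_not E ht]

lemma row_mem {a j : ℕ} (h : a < j) : row E a j ∈ PP E a j := by
  rw [PP_left E h]; exact mem_insert_self _ _

lemma col_mem {a b : ℕ} (h : a ≤ b) : col E a b ∈ PP E a (b + 1) := by
  rw [PP_top E h]; exact mem_insert_self _ _

lemma row_ne_col {a j : ℕ} (h : a < j) : row E a j ≠ col E a j := by
  intro he
  exact col_notMem E h.le (he ▸ row_mem E h)

lemma row_lt_col {a j : ℕ} (h : a < j) (ht : ¬ turn E a j) : row E a j < col E a j := by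
  have h1 := row_ne_col E h
  have h2 : ¬ col E a j < row E a j := fun h' => ht (Or.inr h')
  omega

/-- If `u` is below `v` at one face and above it at a later face, the two pipes cross between. -/
lemma exists_cross (u v a' b' : ℕ) (hv' : v ∈ PP E a' b') (hu' : u ∉ PP E a' b') :
    ∀ m a b : ℕ, a' - a + (b' - b) = m → a ≤ a' → b ≤ b' → u ∈ PP E a b → v ∉ PP E a b →
      ∃ i j, i < j ∧ j < b' ∧ row E i j = u ∧ col E i j = v ∧ ¬ turn E i j := by
  intro m
  induction m using Nat.strong_induction_on with
  | _ m ih =>
    intro a b hm ha hb hu hv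
    have hab : a < b := by
      by_contra h
      rw [PP_empty E (by omega)] at hu
      simp at hu
    have ha1 : a < a' := by
      by_contra h
      exact hu' (PP_mono E (by omega) hb hu)
    have hb1 : b < b' := by
      by_contra h
      exact hv (PP_mono E ha (by omega) hv')
    by_cases h1 : v ∈ PP E a (b + 1)
    swap
    · exact ih _ (by omega) a (b + 1) rfl ha hb1 (PP_mono E le_rfl (by omega) hu) h1
    by_cases h2 : u ∈ PP E (a + 1) b
    · exact ih _ (by omega) (a + 1) b rfl ha1 hb h2
        (fun h => hv (PP_mono E (by omega) le_rfl h))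
    have hvc : v = col E a b := by
      rw [PP_top E hab.le, mem_insert] at h1
      tauto
    have hur : u = row E a b := by
      have hu2 := hu
      rw [PP_left E hab, mem_insert] at hu2
      tauto
    by_cases ht : turn E a b
    · refine ih _ (by omega) (a + 1) (b + 1) rfl ha1 hb1 ?_ ?_
      · rw [PP_turn E hab ht]; exact hu
      · rw [PP_turn E hab ht]; exact hv
    · exact ⟨a, b, hab, hb1, hur.symm, hvc.symm, ht⟩

/-- reducedness -/
lemma no_recross {u v a b a' b' : ℕ} (huv : v < u) (ha : a ≤ a') (hb : b ≤ b')
    (hu : u ∈ PP E a b) (hv : v ∉ PP E a b) (hv' : v ∈ PP E a' b') (hu' : u ∉ PP E a' b') :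
    False := by
  obtain ⟨i, j, hij, -, h1, h2, h3⟩ := exists_cross E u v a' b' hv' hu' _ a b rfl ha hb hu hv
  have := row_lt_col E hij h3
  omega

/-- chains of cells of `R` in the rectangle `[0,a) × [c,b)` -/
def Ch (R : ℕ → ℕ → Prop) (c : ℕ) : ℕ → ℕ → ℕ → Prop
  | 0, _, _ => True
  | r + 1, a, b => ∃ i j, i < a ∧ c ≤ j ∧ j < b ∧ R i j ∧ Ch R c r i j

lemma Ch_mono {R : ℕ → ℕ → Prop} {c r a b a' b' : ℕ} (ha : a ≤ a') (hb : b ≤ b')
    (h : Ch R c r a b) : Ch R c r a' b' := by
  cases r with
  | zero => trivial
  | succ r =>
    obtain ⟨i, j, h1, h2, h3, h4, h5⟩ := h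
    exact ⟨i, j, by omega, h2, by omega, h4, h5⟩

lemma Ch_rel {R R' : ℕ → ℕ → Prop} {c : ℕ} (hR : ∀ i j, i < j → R i j → R' i j) :
    ∀ r a b, a ≤ c → Ch R c r a b → Ch R' c r a b := by
  intro r
  induction r with
  | zero => intro _ _ _ _; trivial
  | succ r ih =>
    rintro a b ha ⟨i, j, h1, h2, h3, h4, h5⟩
    exact ⟨i, j, h1, h2, h3, hR i j (by omega) h4, ih i j (by omega) h5⟩

lemma card_inter_insert (x c : ℕ) (s : Finset ℕ) (hx : x ∉ s) :
    (insert x s ∩ range c).card = (s ∩ range c).card + if x < c then 1 else 0 := by
  split_ifs with h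
  · rw [insert_inter_of_mem (mem_range.2 h), card_insert_of_notMem (by simp [hx])]
  · rw [insert_inter_of_notMem (by simpa using h)]; simp

/-- the pipes that pass from `[0,c)` to the columns come from chains of `E` -/
lemma Ch_of_card (c : ℕ) : ∀ a b r, a ≤ c → c ≤ b →
    r + (c - a) ≤ (PP E a b ∩ range c).card → Ch E c r a b := by
  intro a
  induction a with
  | zero =>
    intro b r _ hb h
    have : (PP E 0 b ∩ range c).card ≤ c :=
      (card_le_card inter_subset_right).trans (by simp)
    have hr : r = 0 := by omega
    subst hr; trivial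
  | succ a iha =>
    intro b r ha hb
    induction b, hb using Nat.le_induction generalizing r with
    | base =>
      intro h
      have : (PP E (a + 1) c ∩ range c).card ≤ c - (a + 1) :=
        (card_le_card inter_subset_left).trans (by rw [PP_card])
      have hr : r = 0 := by omega
      subst hr; trivial
    | succ j hj ihj =>
      intro h
      have haj : a < j := by omega
      have hL := card_inter_insert (row E a j) c _ (row_notMem E haj)
      rw [← PP_left E haj] at hL
      have hT := card_inter_insert (col E a j) c _ (col_notMem E haj.le)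
      rw [← PP_top E haj.le] at hT
      by_cases hE : E a j
      · rw [PP_turn E haj (Or.inl hE)] at h
        cases r with
        | zero => trivial
        | succ r =>
          exact ⟨a, j, by omega, hj, by omega, hE, iha j r (by omega) hj (by omega)⟩
      · by_cases ht : turn E a j
        · have hlt : col E a j < row E a j := ht.resolve_left hE
          rw [PP_turn E haj ht] at h
          by_cases hc : row E a j < c
          · have hc' : col E a j < c := by omega
            rw [if_pos hc'] at hT
            exact Ch_mono (by omega) le_rfl (iha (j + 1) r (by omega) (by omega) (by omega))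
          · rw [if_neg hc] at hL
            exact Ch_mono le_rfl (by omega) (ihj r (by omega))
        · have hlt := row_lt_col E haj ht
          have hcn : col E a j ∉ PP E (a + 1) j :=
            fun hm => col_notMem E haj.le (PP_mono E (by omega) le_rfl hm)
          have hR := card_inter_insert (col E a j) c _ hcn
          rw [← PP_not E haj ht] at hR
          by_cases hc : col E a j < c
          · have hc' : row E a j < c := by omega
            rw [if_pos hc] at hT hR
            rw [if_pos hc'] at hL
            exact Ch_mono (by omega) le_rfl (iha (j + 1) r (by omega) (by omega) (by omega))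
          · rw [if_neg hc] at hR
            exact Ch_mono le_rfl (by omega) (ihj r (by omega))

lemma g_mono (c : ℕ) {a a' b b' : ℕ} (ha : a ≤ a') (ha' : a' ≤ c) (hb : b ≤ b') (hc : c ≤ b) :
    (PP E a b ∩ range c).card + a ≤ (PP E a' b' ∩ range c).card + a' := by
  have h1 : (PP E a' b ∩ range c).card ≤ (PP E a' b' ∩ range c).card :=
    card_le_card (inter_subset_inter (PP_mono E le_rfl hb) subset_rfl)
  suffices h : (PP E a b ∩ range c).card + a ≤ (PP E a' b ∩ range c).card + a' by omega
  clear h1
  induction a', ha using Nat.le_induction with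
  | base => exact le_rfl
  | succ a' ha ih =>
    have h2 : a' < b := by omega
    have hL := card_inter_insert (row E a' b) c _ (row_notMem E h2)
    rw [← PP_left E h2] at hL
    have := ih (by omega)
    split_ifs at hL <;> omega

/-- chains of turning cells send pipes from `[0,c)` to the columns -/
lemma card_of_Ch (c : ℕ) : ∀ r a b, a ≤ c → c ≤ b → Ch (turn E) c r a b →
    r + c ≤ (PP E a b ∩ range c).card + a := by
  intro r
  induction r with
  | zero =>
    intro a b ha hb _
    have h := g_mono E c (Nat.zero_le a) ha (le_refl b) hb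
    rw [PP_zero, inter_eq_right.2 (range_subset_range.2 hb), card_range] at h
    omega
  | succ r ih =>
    rintro a b ha hb ⟨i, j, h1, h2, h3, h4, h5⟩
    have h6 := ih i j (by omega) h2 h5
    have h7 := g_mono E c (a := i + 1) (a' := a) (b := j + 1) (b' := b) h1 ha h3 (by omega)
    rw [PP_turn E (by omega) h4] at h7
    omega

end Pool.Agent.MP_b9449f_co.H8
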