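import Pool.Agent.MP_b9449f_co.H8.Defs
import Pool.Agent.MP_b9449f_co.H8.Pipes

set_option autoImplicit false

namespace Pool.Agent.MP_b9449f_co.H8

open Finset

variable {n : ℕ}

def ER (G : SimpleGraph (Fin n)) (i j : ℕ) : Prop :=
  ∃ (hi : i < n) (hj : j < n), G.Adj ⟨i, hi⟩ ⟨j, hj⟩

lemma crossing_of_Ch (G : SimpleGraph (Fin n)) (c : ℕ) : ∀ r a b, a ≤ c → Ch (ER G) c r a b →
    ∃ S : Finset (Fin n × Fin n), S.card = r ∧
      (∀ e ∈ S, (e.1 : ℕ) < a ∧ c ≤ (e.2 : ℕ) ∧ (e.2 : ℕ) < b ∧ G.Adj e.1 e.2) ∧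
      ∀ e ∈ S, ∀ f ∈ S, e ≠ f → Cross e f := by
  intro r
  induction r with
  | zero => intro a b _ _; exact ⟨∅, rfl, by simp, by simp⟩
  | succ r ih =>
    rintro a b ha ⟨i, j, h1, h2, h3, ⟨hi, hj, hadj⟩, h5⟩
    obtain ⟨S, hS, hmem, hcr⟩ := ih i j (by omega) h5
    have hnot : ((⟨i, hi⟩, ⟨j, hj⟩) : Fin n × Fin n) ∉ S := by
      intro hm
      have := (hmem _ hm).1
      simp at this
    refine ⟨insert (⟨i, hi⟩, ⟨j, hj⟩) S, by rw [card_insert_of_notMem hnot, hS], ?_, ?_⟩
    · intro e he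
      rcases mem_insert.1 he with rfl | he
      · exact ⟨h1, h2, h3, hadj⟩
      · obtain ⟨q1, q2, q3, q4⟩ := hmem e he
        exact ⟨by omega, q2, by omega, q4⟩
    · intro e he f hf hef
      rcases mem_insert.1 he with rfl | he <;> rcases mem_insert.1 hf with rfl | hf
      · exact absurd rfl hef
      · obtain ⟨q1, q2, q3, -⟩ := hmem f hf
        right
        simp only [Fin.lt_def]
        omega
      · obtain ⟨q1, q2, q3, -⟩ := hmem e he
        left
        simp only [Fin.lt_def]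
        omega
      · exact hcr e he f hf hef

lemma Ch_of_crossing (G : SimpleGraph (Fin n)) (c : ℕ) : ∀ (r : ℕ) (S : Finset (Fin n × Fin n))
    (a b : ℕ), S.card = r →
    (∀ e ∈ S, (e.1 : ℕ) < a ∧ c ≤ (e.2 : ℕ) ∧ (e.2 : ℕ) < b ∧ G.Adj e.1 e.2) →
    (∀ e ∈ S, ∀ f ∈ S, e ≠ f → Cross e f) → Ch (ER G) c r a b := by
  intro r
  induction r with
  | zero => intro _ _ _ _ _ _; trivial
  | succ r ih =>
    intro S a b hS hmem hcr
    have hne : S.Nonempty := card_pos.1 (by omega)
    obtain ⟨e, he, hmax⟩ := exists_max_image S (fun e => e.1) hne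
    obtain ⟨q1, q2, q3, q4⟩ := hmem e he
    refine ⟨e.1, e.2, q1, q2, q3, ⟨e.1.2, e.2.2, q4⟩, ?_⟩
    refine ih (S.erase e) _ _ (by rw [card_erase_of_mem he]; omega) ?_ ?_
    · intro f hf
      obtain ⟨hfe, hf⟩ := mem_erase.1 hf
      obtain ⟨p1, p2, p3, p4⟩ := hmem f hf
      have h1 := hmax f hf
      have h2 := hcr f hf e he hfe
      simp only [Cross, Fin.lt_def, Fin.le_def] at h1 h2
      exact ⟨by omega, p2, by omega, p4⟩
    · intro f hf g hg hfg
      exact hcr f (mem_of_mem_erase hf) g (mem_of_mem_erase hg) hfg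

lemma hasCrossing_iff (G : SimpleGraph (Fin n)) (r : ℕ) :
    HasCrossing r G ↔ ∃ c ≤ n, Ch (ER G) c r c n := by
  constructor
  · rintro ⟨S, hS, hmem, hcr⟩
    rcases S.eq_empty_or_nonempty with rfl | hne
    · obtain rfl : r = 0 := by simpa using hS.symm
      exact ⟨0, Nat.zero_le _, trivial⟩
    · obtain ⟨e, he, hmax⟩ := exists_max_image S (fun e => e.1) hne
      refine ⟨e.1 + 1, e.1.2, Ch_of_crossing G _ r S _ _ hS ?_ hcr⟩
      intro f hf
      have h1 := hmax f hf
      have h2 := (hmem f hf).1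
      have h3 : (e.1 : ℕ) < f.2 := by
        by_cases hfe : f = e
        · subst hfe; exact h2
        · have h4 := hcr f hf e he hfe
          simp only [Cross, Fin.lt_def, Fin.le_def] at h1 h2 h4
          omega
      simp only [Fin.lt_def, Fin.le_def] at h1 h2
      exact ⟨by omega, by omega, f.2.2, (hmem f hf).2⟩
  · rintro ⟨c, -, h⟩
    obtain ⟨S, hS, hmem, hcr⟩ := crossing_of_Ch G c r c n le_rfl h
    refine ⟨S, hS, fun e he => ?_, hcr⟩
    obtain ⟨q1, q2, q3, q4⟩ := hmem e he
    exact ⟨by rw [Fin.lt_def]; omega, q4⟩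

/-- an edge in a `(k+1)`-crossing is long on both sides -/
lemma long_of_mem {k : ℕ} (S : Finset (Fin n × Fin n)) (hS : S.card = k + 1)
    (hcr : ∀ e ∈ S, ∀ f ∈ S, e ≠ f → Cross e f) (e : Fin n × Fin n) (he : e ∈ S)
    (hlt : e.1 < e.2) : (e.1 : ℕ) + k < e.2 ∧ (e.2 : ℕ) + k < e.1 + n := by
  have hc : (S.erase e).card = k := by rw [card_erase_of_mem he]; omega
  have hlt' : (e.1 : ℕ) < e.2 := hlt
  constructor
  · have h1 : (S.erase e).card ≤ (Ioo (e.1 : ℕ) e.2).card := by
      refine card_le_card_of_injOn (fun f => if e.1 < f.1 then (f.1 : ℕ) else f.2) ?_ ?_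
      · intro f hf
        obtain ⟨hfe, hf⟩ := mem_erase.1 hf
        have h := hcr f hf e he hfe
        simp only [Cross, Fin.lt_def] at h
        simp only [Fin.lt_def, coe_Ioo, Set.mem_Ioo]
        split_ifs <;> omega
      · intro f hf g hg hfg
        by_contra hne
        have h := hcr f (mem_of_mem_erase hf) g (mem_of_mem_erase hg) hne
        obtain ⟨hfe, hf⟩ := mem_erase.1 hf
        obtain ⟨hge, hg⟩ := mem_erase.1 hg
        have h1 := hcr f hf e he hfe
        have h2 := hcr g hg e he hge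
        simp only [Cross, Fin.lt_def] at h h1 h2 hfg
        split_ifs at hfg <;> omega
    rw [hc, Nat.card_Ioo] at h1
    omega
  · have h1 : (S.erase e).card ≤ (Ioo (e.2 : ℕ) (e.1 + n)).card := by
      refine card_le_card_of_injOn (fun f => if e.1 < f.1 then (f.2 : ℕ) else f.1 + n) ?_ ?_
      · intro f hf
        obtain ⟨hfe, hf⟩ := mem_erase.1 hf
        have h := hcr f hf e he hfe
        have := f.2.2
        have := e.2.2
        simp only [Cross, Fin.lt_def] at h
        simp only [Fin.lt_def, coe_Ioo, Set.mem_Ioo]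
        split_ifs <;> omega
      · intro f hf g hg hfg
        by_contra hne
        have h := hcr f (mem_of_mem_erase hf) g (mem_of_mem_erase hg) hne
        obtain ⟨hfe, hf⟩ := mem_erase.1 hf
        obtain ⟨hge, hg⟩ := mem_erase.1 hg
        have h1 := hcr f hf e he hfe
        have h2 := hcr g hg e he hge
        have := f.2.2
        have := g.2.2
        simp only [Cross, Fin.lt_def] at h h1 h2 hfg
        split_ifs at hfg <;> omega
    rw [hc, Nat.card_Ioo] at h1
    have := e.2.2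
    omega

section tri
variable {k : ℕ} {T : SimpleGraph (Fin n)}

lemma short_edge (hT : IsMultiTriangulation k T) {i j : ℕ} (hij : i < j) (hj : j < n)
    (hs : j ≤ i + k ∨ i + n ≤ j + k) : ER T i j := by
  have hi : i < n := hij.trans hj
  have hne : (⟨i, hi⟩ : Fin n) ≠ ⟨j, hj⟩ := by
    intro h; simp at h; omega
  have h1 : ¬ HasCrossing (k + 1) (T ⊔ SimpleGraph.edge ⟨i, hi⟩ ⟨j, hj⟩) := by
    rintro ⟨S, hS, hmem, hcr⟩
    by_cases hm : ((⟨i, hi⟩, ⟨j, hj⟩) : Fin n × Fin n) ∈ S
    · have := long_of_mem S hS hcr _ hm (hmem _ hm).1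
      simp only at this
      omega
    · refine hT.1 ⟨S, hS, fun e he => ⟨(hmem e he).1, ?_⟩, hcr⟩
      obtain ⟨q1, q2⟩ := hmem e he
      rcases q2 with q2 | q2
      · exact q2
      · exfalso
        rw [SimpleGraph.edge_adj] at q2
        rcases q2.1 with ⟨p1, p2⟩ | ⟨p1, p2⟩
        · exact hm (by rw [← p1, ← p2]; exact he)
        · rw [p1, p2, Fin.lt_def] at q1
          simp only at q1
          omega
  have h2 := hT.2 h1 le_sup_left
  exact ⟨hi, hj, h2 (Or.inr (by rw [SimpleGraph.edge_adj]; exact ⟨Or.inl ⟨rfl, rfl⟩, hne⟩))⟩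

lemma card_inter_le (hT : IsMultiTriangulation k T) {c : ℕ} (hc : c ≤ n) :
    (PP (ER T) c n ∩ range c).card ≤ k := by
  by_contra h
  refine hT.1 ((hasCrossing_iff T _).2 ⟨c, hc, Ch_of_card _ c c n _ le_rfl hc (by omega)⟩)

/-- graph of turning cells -/
def turnGraph (T : SimpleGraph (Fin n)) : SimpleGraph (Fin n) where
  Adj u v := (u < v ∧ turn (ER T) u v) ∨ (v < u ∧ turn (ER T) v u)
  symm := ⟨fun _ _ h => h.symm⟩
  loopless := ⟨fun u h => by rcases h with h | h <;> exact lt_irrefl _ h.1⟩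

lemma turn_iff (hT : IsMultiTriangulation k T) {i j : ℕ} (hij : i < j) (hj : j < n) :
    turn (ER T) i j ↔ ER T i j := by
  refine ⟨fun ht => ?_, Or.inl⟩
  have h1 : ¬ HasCrossing (k + 1) (turnGraph T) := by
    intro h
    obtain ⟨c, hc, hch⟩ := (hasCrossing_iff _ _).1 h
    have h2 : Ch (turn (ER T)) c (k + 1) c n := by
      refine Ch_rel ?_ _ _ _ le_rfl hch
      rintro a b hab ⟨ha, hb, h | h⟩
      · exact h.2
      · exact absurd h.1 (by simp only [Fin.lt_def]; omega)
    have h3 := card_of_Ch _ c _ _ _ le_rfl hc h2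
    have h4 := card_inter_le hT hc
    omega
  have h2 : T ≤ turnGraph T := by
    intro u v huv
    rcases lt_trichotomy u v with h | h | h
    · exact Or.inl ⟨h, Or.inl ⟨u.2, v.2, huv⟩⟩
    · exact absurd h huv.ne
    · exact Or.inr ⟨h, Or.inl ⟨v.2, u.2, huv.symm⟩⟩
  exact ⟨hij.trans hj, hj, hT.2 h1 h2 (Or.inl ⟨hij, ht⟩)⟩

lemma PP_short (hT : IsMultiTriangulation k T) {t : ℕ} (ht : t ≤ k ∨ n ≤ t + k) :
    ∀ a, a + t ≤ n → PP (ER T) a (a + t) = range t := by
  intro a
  induction a with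
  | zero => intro _; rw [PP_zero, Nat.zero_add]
  | succ a ih =>
    intro h
    rcases Nat.eq_zero_or_pos t with rfl | hpos
    · rw [PP_empty _ (by omega)]; simp
    · have h1 : ER T a (a + t) := short_edge hT (by omega) (by omega) (by omega)
      rw [show a + 1 + t = a + t + 1 by omega, PP_turn _ (by omega) (Or.inl h1), ih (by omega)]

lemma middle_not_mem (hT : IsMultiTriangulation k T) {x c : ℕ} (hx : k ≤ x) (hxc : x < c)
    (hc : c ≤ n) : x ∉ PP (ER T) c n := by
  intro hm
  by_cases h : c + k ≤ n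
  · have h1 : insert x (range k) ⊆ PP (ER T) c n ∩ range c := by
      intro y hy
      rcases mem_insert.1 hy with rfl | hy
      · exact mem_inter.2 ⟨hm, mem_range.2 hxc⟩
      · refine mem_inter.2 ⟨?_, mem_range.2 (by have := mem_range.1 hy; omega)⟩
        rw [← PP_short hT (Or.inl le_rfl) c h] at hy
        exact PP_mono _ le_rfl h hy
    have h2 := card_le_card h1
    rw [card_insert_of_notMem (by simp; omega), card_range] at h2
    have := card_inter_le hT hc
    omega
  · have h1 := PP_short hT (t := n - c) (Or.inl (by omega)) c (by omega)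
    rw [show c + (n - c) = n by omega] at h1
    rw [h1, mem_range] at hm
    omega

lemma cross_middle (hT : IsMultiTriangulation k T) {i j : ℕ} (hij : i < j) (hj : j < n)
    (hE : ¬ ER T i j) : k ≤ row (ER T) i j ∧ row (ER T) i j < col (ER T) i j ∧
      col (ER T) i j + k < n := by
  have ht : ¬ turn (ER T) i j := fun h => hE ((turn_iff hT hij hj).1 h)
  have h1 : ¬ (j ≤ i + k ∨ i + n ≤ j + k) := fun h => hE (short_edge hT hij hj h)
  refine ⟨?_, row_lt_col _ hij ht, ?_⟩
  · by_contra h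
    have h2 : row (ER T) i j ∈ range k := mem_range.2 (by omega)
    rw [← PP_short hT (Or.inl le_rfl) (i + 1) (by omega)] at h2
    exact row_notMem _ hij (PP_mono _ le_rfl (by omega) h2)
  · have h2 := col_mem (ER T) hij.le
    have h3 := PP_short hT (t := n - k) (Or.inr (by omega)) (j + 1 + k - n) (by omega)
    have h4 := PP_mono (ER T) (a := i) (a' := j + 1 + k - n) (b := j + 1)
      (b' := j + 1 + k - n + (n - k)) (by omega) (by omega) h2
    rw [h3, mem_range] at h4
    omega

lemma self_mem (hT : IsMultiTriangulation k T) {v : ℕ} (hv : k ≤ v) (hv' : v + k < n) :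
    v ∈ PP (ER T) v n := by
  have h1 : PP (ER T) v n ⊆ range k ∪ Ico v (n - k) := by
    intro y hy
    have h3 := PP_short hT (t := n - k) (Or.inr (by omega)) k (by omega)
    have h4 := PP_mono (ER T) (a' := k) (b' := k + (n - k)) hv (by omega) hy
    rw [h3, mem_range] at h4
    by_cases h : y < k
    · exact mem_union_left _ (mem_range.2 h)
    · refine mem_union_right _ (mem_Ico.2 ⟨?_, h4⟩)
      by_contra h'
      exact middle_not_mem hT (by omega) (by omega) (by omega) hy
  have h2 : (range k ∪ Ico v (n - k)).card ≤ (PP (ER T) v n).card := by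
    refine (card_union_le _ _).trans ?_
    rw [PP_card, card_range, Nat.card_Ico]
    omega
  rw [eq_of_subset_of_card_le h1 h2]
  exact mem_union_right _ (mem_Ico.2 ⟨le_rfl, by omega⟩)

lemma pair_cross (hT : IsMultiTriangulation k T) {u v : ℕ} (hu : k ≤ u) (huv : u < v)
    (hv : v + k < n) : ∃ i j, i < j ∧ j < n ∧ row (ER T) i j = u ∧ col (ER T) i j = v ∧
      ¬ ER T i j := by
  obtain ⟨i, j, h1, h2, h3, h4, h5⟩ := exists_cross (ER T) u v v n (self_mem hT (by omega) hv)
    (middle_not_mem hT hu huv (by omega)) _ 0 v rfl (Nat.zero_le _) (by omega)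
    (by rw [PP_zero]; exact mem_range.2 huv) (by rw [PP_zero]; simp)
  exact ⟨i, j, h1, h2, h3, h4, fun h => h5 (Or.inl h)⟩

lemma cross_inj (E : ℕ → ℕ → Prop) {i j i' j' : ℕ} (hij : i < j) (hij' : i' < j')
    (ht : ¬ turn E i j) (ht' : ¬ turn E i' j') (hr : row E i j = row E i' j')
    (hc : col E i j = col E i' j') : i = i' ∧ j = j' := by
  have key : ∀ {i j i' j' : ℕ}, i < j → i' < j' → ¬ turn E i j → ¬ turn E i' j' →
      row E i j = row E i' j' → col E i j = col E i' j' → ¬ i' < i ∧ ¬ (i' = i ∧ j < j') := by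
    intro i j i' j' hij hij' ht ht' hr hc
    have hlt := row_lt_col E hij ht
    constructor
    · intro h
      by_cases hjj : j' < j
      · refine no_recross E hlt (a := i' + 1) (b := j' + 1) (a' := i) (b' := j) h hjj ?_ ?_
          (row_mem E hij) (col_notMem E hij.le)
        · rw [PP_not E hij' ht', hc]; exact mem_insert_self _ _
        · rw [PP_not E hij' ht', mem_insert, not_or]
          exact ⟨by omega, hr ▸ row_notMem E hij'⟩
      · exact row_notMem E hij' (hr ▸ PP_mono E h (by omega) (row_mem E hij))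
    · rintro ⟨rfl, h⟩
      exact col_notMem E hij'.le (hc ▸ PP_mono E le_rfl h (col_mem E hij.le))
  have h1 := key hij hij' ht ht' hr hc
  have h2 := key hij' hij ht' ht hr.symm hc.symm
  omega

end tri

end Pool.Agent.MP_b9449f_co.H8
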