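import Mathlib

set_option autoImplicit false

namespace Pool.Agent.MP_b9449f_co.H8

/-- The edges `[a,c]` and `[b,d]` of the convex polygon, written as pairs `e = (a,c)` and
`f = (b,d)`, cross: `a < b < c < d` or `b < a < d < c`. -/
def Cross {n : ℕ} (e f : Fin n × Fin n) : Prop :=
  (e.1 < f.1 ∧ f.1 < e.2 ∧ e.2 < f.2) ∨ (f.1 < e.1 ∧ e.1 < f.2 ∧ f.2 < e.2)

/-- The graph `G` contains `m` pairwise crossing edges. -/
def HasCrossing {n : ℕ} (m : ℕ) (G : SimpleGraph (Fin n)) : Prop :=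
  ∃ S : Finset (Fin n × Fin n), S.card = m ∧ (∀ e ∈ S, e.1 < e.2 ∧ G.Adj e.1 e.2) ∧
    ∀ e ∈ S, ∀ f ∈ S, e ≠ f → Cross e f

/-- A `k`-triangulation of the convex `n`-gon: an inclusion-maximal edge set with no
`(k+1)`-crossing. -/
def IsMultiTriangulation {n : ℕ} (k : ℕ) (G : SimpleGraph (Fin n)) : Prop :=
  Maximal (fun H : SimpleGraph (Fin n) => ¬ HasCrossing (k + 1) H) G

/-- The framework `(G, p)` in Euclidean `d`-space is rigid: along every continuous motion starting
at `p` and preserving all edge lengths, each placement is the image of `p` under an isometry of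
the whole space. -/
def IsRigid {n d : ℕ} (G : SimpleGraph (Fin n)) (p : Fin n → EuclideanSpace ℝ (Fin d)) : Prop :=
  ∀ γ : unitInterval → Fin n → EuclideanSpace ℝ (Fin d), Continuous γ → γ 0 = p →
    (∀ t u v, G.Adj u v → dist (γ t u) (γ t v) = dist (p u) (p v)) →
    ∀ t, ∃ φ : EuclideanSpace ℝ (Fin d) ≃ᵢ EuclideanSpace ℝ (Fin d), ∀ v, γ t v = φ (p v)

end Pool.Agent.MP_b9449f_co.H8
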