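import Pool.Agent.MP_b9449f_co.H8.Generic
import Pool.Agent.MP_b9449f_co.H8.Defs

set_option autoImplicit false

namespace Pool.Agent.MP_b9449f_co.H8

open Finset MeasureTheory Filter Topology
open scoped RealInnerProductSpace

variable {n : ℕ} {E : Type*} [NormedAddCommGroup E] [InnerProductSpace ℝ E]

abbrev Ed (G : SimpleGraph (Fin n)) := {e : Fin n × Fin n // e.1 < e.2 ∧ G.Adj e.1 e.2}

noncomputable def dif (i j : Fin n) : (Fin n → E) →L[ℝ] E :=
  ContinuousLinearMap.proj (R := ℝ) (φ := fun _ : Fin n => E) i -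
    ContinuousLinearMap.proj (R := ℝ) (φ := fun _ : Fin n => E) j

@[simp] lemma dif_apply (i j : Fin n) (q : Fin n → E) : dif i j q = q i - q j := rfl

noncomputable def lenMap (G : SimpleGraph (Fin n)) (q : Fin n → E) : Ed G → ℝ :=
  fun e => ‖q e.1.1 - q e.1.2‖ ^ 2

noncomputable def lenDer (G : SimpleGraph (Fin n)) (p : Fin n → E) : (Fin n → E) →L[ℝ] (Ed G → ℝ) :=
  ContinuousLinearMap.pi fun e =>
    (2 • innerSL ℝ (p e.1.1 - p e.1.2)).comp (dif e.1.1 e.1.2)

lemma lenDer_apply (G : SimpleGraph (Fin n)) (p u : Fin n → E) (e : Ed G) :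
    lenDer G p u e = 2 * ⟪p e.1.1 - p e.1.2, u e.1.1 - u e.1.2⟫ := by
  simp [lenDer, inner_sub_left]

lemma delta_mul {i j a b : Fin n} (hij : i ≠ j) (h2 : ¬ (i = a ∧ j = b))
    (h3 : ¬ (i = b ∧ j = a)) (x : ℝ) :
    x * ((if i = a then (1 : ℝ) else 0) - (if i = b then 1 else 0)) *
      ((if j = a then (1 : ℝ) else 0) - (if j = b then 1 else 0)) = 0 := by
  split_ifs <;> simp_all

lemma hasStrict (G : SimpleGraph (Fin n)) (p : Fin n → E) :
    HasStrictFDerivAt (lenMap G) (lenDer G p) p := by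
  refine hasStrictFDerivAt_pi.2 fun e => ?_
  exact (hasStrictFDerivAt_norm_sq (dif e.1.1 e.1.2 p)).comp p
    (dif e.1.1 e.1.2 : (Fin n → E) →L[ℝ] E).hasStrictFDerivAt

lemma lenDer_range {G : SimpleGraph (Fin n)} {p : Fin n → E} (hp : StressFree G p) :
    (lenDer G p).range = ⊤ := by
  classical
  by_contra hne
  obtain ⟨φ, hφ0, hφ⟩ := Submodule.exists_le_ker_of_lt_top _ (lt_top_iff_ne_top.2 hne)
  let w : Ed G → ℝ := fun e => φ (Pi.single e 1)
  have hφw : ∀ y : Ed G → ℝ, φ y = ∑ e, y e * w e := by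
    intro y
    conv_lhs => rw [pi_eq_sum_univ' y]
    simp [map_sum, w]
  let δ : Ed G → Fin n → ℝ := fun e i =>
    (if i = e.1.1 then 1 else 0) - (if i = e.1.2 then 1 else 0)
  have hδ : ∀ (e : Ed G) (q : Fin n → E), ∑ j, δ e j • q j = q e.1.1 - q e.1.2 := by
    intro e q
    simp [δ, sub_smul, sum_sub_distrib, ite_smul]
  have hδ1 : ∀ e : Ed G, ∑ j, δ e j = 0 := by
    intro e
    simp [δ, sum_sub_distrib]
  let Ω : Fin n → Fin n → ℝ := fun i j => ∑ e, w e * δ e i * δ e j
  have hΩp : ∀ i, ∑ j, Ω i j • p j = ∑ e, (w e * δ e i) • (p e.1.1 - p e.1.2) := by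
    intro i
    simp only [Ω, sum_smul]
    rw [sum_comm]
    refine sum_congr rfl fun e _ => ?_
    simp only [mul_smul (w e * δ e i)]
    rw [← smul_sum, hδ]
  have h0 : Ω = 0 := by
    refine hp Ω (fun i j => sum_congr rfl fun e _ => by ring) ?_ ?_ ?_
    · intro i j hij hadj
      refine sum_eq_zero fun e _ => ?_
      have h1 := e.2.2
      have h2 : ¬ (i = e.1.1 ∧ j = e.1.2) := by rintro ⟨rfl, rfl⟩; exact hadj h1
      have h3 : ¬ (i = e.1.2 ∧ j = e.1.1) := by rintro ⟨rfl, rfl⟩; exact hadj h1.symm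
      exact delta_mul hij h2 h3 _
    · intro i
      simp only [Ω]
      rw [sum_comm]
      exact sum_eq_zero fun e _ => by rw [← mul_sum, hδ1, mul_zero]
    · intro i
      set v := ∑ j, Ω i j • p j with hv
      have h1 : φ (lenDer G p (Pi.single i v)) = 0 := hφ ⟨_, rfl⟩
      rw [hφw] at h1
      have h2 : ∀ e : Ed G, (Pi.single i v : Fin n → E) e.1.1 - (Pi.single i v : Fin n → E) e.1.2 =
          δ e i • v := by
        intro e
        rw [← hδ e, sum_eq_single i (fun j _ h => by simp [h]) (by simp)]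
        simp
      simp only [lenDer_apply, h2, inner_smul_right] at h1
      have h3 : ⟪v, v⟫ = 0 := by
        conv_lhs => rw [hv, hΩp, sum_inner, ← hΩp, ← hv]
        simp only [inner_smul_left, conj_trivial]
        have : ∑ e : Ed G, w e * δ e i * ⟪p e.1.1 - p e.1.2, v⟫ =
            (∑ e : Ed G, 2 * (δ e i * ⟪p e.1.1 - p e.1.2, v⟫) * w e) / 2 := by
          rw [sum_div]
          exact sum_congr rfl fun e _ => by ring
        rw [this, h1, zero_div]
      exact inner_self_eq_zero.1 h3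
  apply hφ0
  have hw : ∀ e, w e = 0 := by
    intro e
    have h1 := congrFun (congrFun h0 e.1.1) e.1.2
    have hne : e.1.1 ≠ e.1.2 := e.2.1.ne
    simp only [Ω, Pi.zero_apply] at h1
    rw [sum_eq_single e ?_ (by simp)] at h1
    · simpa [δ, hne, hne.symm] using h1
    · intro f _ hfe
      have h2 : ¬ (e.1.1 = f.1.1 ∧ e.1.2 = f.1.2) :=
        fun h => hfe (Subtype.ext (Prod.ext h.1.symm h.2.symm))
      have h3 : ¬ (e.1.1 = f.1.2 ∧ e.1.2 = f.1.1) := by
        rintro ⟨h, h'⟩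
        have := f.2.1
        rw [← h, ← h'] at this
        exact lt_asymm this e.2.1
      exact delta_mul hne h2 h3 _
  refine LinearMap.ext fun y => ?_
  simp [hφw, hw]

theorem not_isRigid_of {d : ℕ} (G : SimpleGraph (Fin n))
    {p : Fin n → EuclideanSpace ℝ (Fin d)} (hp : StressFree G p) (e : Sym2 (Fin n))
    (he : e ∈ G.edgeSet) : ¬ IsRigid (G.deleteEdges {e}) p := by
  classical
  obtain ⟨e₀, he₀⟩ : ∃ e₀ : Ed G, e = s(e₀.1.1, e₀.1.2) := by
    induction e using Sym2.ind with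
    | _ a b =>
      have hab : G.Adj a b := he
      rcases lt_or_gt_of_ne hab.ne with h | h
      · exact ⟨⟨(a, b), h, hab⟩, rfl⟩
      · exact ⟨⟨(b, a), h, hab.symm⟩, Sym2.eq_swap⟩
  subst he₀
  have hf := hasStrict G p
  have hr := lenDer_range hp
  let Φ := hf.implicitToOpenPartialHomeomorph _ _ hr
  let c : ℝ → (Ed G → ℝ) × (lenDer G p).ker :=
    fun s => (lenMap G p + s • (Pi.single e₀ 1 : Ed G → ℝ), 0)
  have hc : Continuous c := by fun_prop
  have hc0 : c 0 = (lenMap G p, 0) := by simp [c]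
  have h1 : c ⁻¹' Φ.target ∈ 𝓝 (0 : ℝ) :=
    hc.continuousAt.preimage_mem_nhds (Φ.open_target.mem_nhds (by
      rw [hc0]; exact hf.mem_implicitToOpenPartialHomeomorph_target hr))
  obtain ⟨η, hη, hball⟩ := Metric.mem_nhds_iff.1 h1
  have hmem : ∀ t : unitInterval, c (η / 2 * t) ∈ Φ.target := by
    intro t
    apply hball
    rw [Metric.mem_ball, Real.dist_eq, sub_zero, abs_of_nonneg (mul_nonneg (by linarith) t.2.1)]
    nlinarith [t.2.2]
  let γ : unitInterval → Fin n → EuclideanSpace ℝ (Fin d) := fun t => Φ.symm (c (η / 2 * t))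
  have hγ : Continuous γ :=
    Φ.continuousOn_symm.comp_continuous (by fun_prop) hmem
  have hγ0 : γ 0 = p := by
    have : γ 0 = Φ.symm (Φ p) := by
      simp only [γ, Φ, HasStrictFDerivAt.implicitToOpenPartialHomeomorph_self]
      simp [hc0]
    rw [this]
    exact Φ.left_inv (hf.mem_implicitToOpenPartialHomeomorph_source hr)
  have hlen : ∀ t, lenMap G (γ t) = lenMap G p + (η / 2 * t) • (Pi.single e₀ 1 : Ed G → ℝ) := by
    intro t
    have := congrArg Prod.fst (Φ.right_inv (hmem t))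
    exact this
  intro hrig
  obtain ⟨φ, hφ⟩ := hrig γ hγ hγ0 (fun t u v huv => by
    rw [SimpleGraph.deleteEdges_adj, Set.mem_singleton_iff] at huv
    wlog hlt : u < v generalizing u v
    · rw [dist_comm, dist_comm (p u)]
      exact this v u ⟨huv.1.symm, by rw [Sym2.eq_swap]; exact huv.2⟩
        (lt_of_le_of_ne (not_lt.1 hlt) huv.1.ne')
    have h2 := congrFun (hlen t) ⟨(u, v), hlt, huv.1⟩
    have hne : (⟨(u, v), hlt, huv.1⟩ : Ed G) ≠ e₀ := by
      intro h
      exact huv.2 (by rw [← h])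
    simp only [lenMap, Pi.add_apply, Pi.smul_apply, Pi.single_eq_of_ne hne, smul_zero,
      add_zero] at h2
    rw [dist_eq_norm, dist_eq_norm, ← sq_eq_sq₀ (norm_nonneg _) (norm_nonneg _)]
    exact h2) 1
  have h3 := congrFun (hlen 1) e₀
  simp only [lenMap, Pi.add_apply, Pi.smul_apply, Pi.single_eq_same, smul_eq_mul, mul_one,
    ← dist_eq_norm, hφ, IsometryEquiv.dist_eq] at h3
  simp at h3
  linarith

end Pool.Agent.MP_b9449f_co.H8
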