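import Pool.Agent.MP_b9449f_co.H8.Stress

set_option autoImplicit false

namespace Pool.Agent.MP_b9449f_co.H8

open Finset MeasureTheory
open scoped RealInnerProductSpace

section congr
variable {E : Type*} [NormedAddCommGroup E] [InnerProductSpace ℝ E] [FiniteDimensional ℝ E]

theorem exists_isometry {n : ℕ} (i₀ : Fin n) (p q : Fin n → E)
    (h : ∀ i j, dist (q i) (q j) = dist (p i) (p j)) :
    ∃ (A : E ≃ₗᵢ[ℝ] E) (b : E), ∀ i, q i = A (p i) + b := by
  classical
  let P : (Fin n → ℝ) →ₗ[ℝ] E := Fintype.linearCombination ℝ (fun i => p i - p i₀)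
  let Q : (Fin n → ℝ) →ₗ[ℝ] E := Fintype.linearCombination ℝ (fun i => q i - q i₀)
  have hin : ∀ i j, ⟪q i - q i₀, q j - q i₀⟫ = ⟪p i - p i₀, p j - p i₀⟫ := by
    intro i j
    rw [real_inner_eq_norm_mul_self_add_norm_mul_self_sub_norm_sub_mul_self_div_two,
      real_inner_eq_norm_mul_self_add_norm_mul_self_sub_norm_sub_mul_self_div_two,
      sub_sub_sub_cancel_right, sub_sub_sub_cancel_right]
    simp only [← dist_eq_norm, h]
  have hnorm : ∀ x, ‖Q x‖ = ‖P x‖ := by
    intro x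
    rw [← sq_eq_sq₀ (norm_nonneg _) (norm_nonneg _), ← real_inner_self_eq_norm_sq,
      ← real_inner_self_eq_norm_sq]
    simp only [P, Q, Fintype.linearCombination_apply, sum_inner, inner_sum, inner_smul_left,
      inner_smul_right, hin]
  have hker : LinearMap.ker P ≤ LinearMap.ker Q := by
    intro x hx
    rw [LinearMap.mem_ker] at hx ⊢
    rw [← norm_eq_zero, hnorm, hx, norm_zero]
  let L₀ : LinearMap.range P →ₗ[ℝ] E :=
    ((LinearMap.ker P).liftQ Q hker) ∘ₗ (LinearMap.quotKerEquivRange P).symm.toLinearMap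
  have hL₀ : ∀ x, L₀ ⟨P x, LinearMap.mem_range_self P x⟩ = Q x := by
    intro x
    simp [L₀, LinearMap.quotKerEquivRange_symm_apply_image]
  let L : LinearMap.range P →ₗᵢ[ℝ] E :=
    { toLinearMap := L₀
      norm_map' := by
        rintro ⟨_, x, rfl⟩
        rw [hL₀, hnorm]; rfl }
  let A := L.extend.toLinearIsometryEquiv rfl
  refine ⟨A, q i₀ - A (p i₀), fun i => ?_⟩
  have h1 : A (P (Pi.single i 1)) = Q (Pi.single i 1) := by
    have := L.extend_apply ⟨P (Pi.single i 1), LinearMap.mem_range_self P _⟩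
    rw [← hL₀]
    exact this
  simp only [P, Q, Fintype.linearCombination_apply_single, one_smul, map_sub] at h1
  rw [← sub_eq_zero]
  have : q i - (A (p i) + (q i₀ - A (p i₀))) = (q i - q i₀) - (A (p i) - A (p i₀)) := by abel
  rw [this, h1, sub_self]

end congr

variable {n : ℕ} {E : Type*} [NormedAddCommGroup E] [NormedSpace ℝ E]

theorem StressFree.map {G : SimpleGraph (Fin n)} {p q : Fin n → E} (hp : StressFree G p)
    (A : E →ₗ[ℝ] E) (hA : Function.Injective A) (b : E) (h : ∀ i, q i = A (p i) + b) :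
    StressFree G q := by
  intro Ω h1 h2 h3 h4
  refine hp Ω h1 h2 h3 fun i => hA ?_
  have := h4 i
  simp only [h, smul_add, sum_add_distrib, ← sum_smul, h3, zero_smul, add_zero] at this
  simpa [map_sum] using this

/-- candidate stresses -/
def SG (G : SimpleGraph (Fin n)) : Submodule ℝ (Fin n → Fin n → ℝ) where
  carrier := {Ω | (∀ i j, Ω i j = Ω j i) ∧ (∀ i j, i ≠ j → ¬ G.Adj i j → Ω i j = 0) ∧
    (∀ i, ∑ j, Ω i j = 0)}
  add_mem' := by
    rintro a b ⟨a1, a2, a3⟩ ⟨b1, b2, b3⟩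
    refine ⟨fun i j => ?_, fun i j h h' => ?_, fun i => ?_⟩
    · simp [a1 i j, b1 i j]
    · simp [a2 i j h h', b2 i j h h']
    · simp [sum_add_distrib, a3, b3]
  zero_mem' := by simp
  smul_mem' := by
    rintro c a ⟨a1, a2, a3⟩
    refine ⟨fun i j => ?_, fun i j h h' => ?_, fun i => ?_⟩
    · simp [a1 i j]
    · simp [a2 i j h h']
    · simp [← mul_sum, a3]

noncomputable def Lam (G : SimpleGraph (Fin n)) : (Fin n → E) →ₗ[ℝ] SG G →ₗ[ℝ] (Fin n → E) :=
  LinearMap.mk₂ ℝ (fun p Ω i => ∑ j, Ω.1 i j • p j)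
    (fun p q Ω => by funext i; simp [sum_add_distrib])
    (fun c p Ω => by funext i; simp [smul_sum, smul_comm c])
    (fun p a b => by funext i; simp [add_smul, sum_add_distrib])
    (fun c p a => by funext i; simp [smul_sum, mul_smul])

lemma stressFree_iff (G : SimpleGraph (Fin n)) (p : Fin n → E) :
    StressFree G p ↔ Function.Injective (Lam G p) := by
  rw [← LinearMap.ker_eq_bot, LinearMap.ker_eq_bot']
  constructor
  · rintro h ⟨Ω, h1, h2, h3⟩ h4
    exact Subtype.ext (h Ω h1 h2 h3 fun i => congrFun h4 i)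
  · intro h Ω h1 h2 h3 h4
    exact congrArg Subtype.val (h ⟨Ω, h1, h2, h3⟩ (funext h4))

theorem isOpen_stressFree [FiniteDimensional ℝ E] (G : SimpleGraph (Fin n)) :
    IsOpen {p : Fin n → E | StressFree G p} := by
  let F : (Fin n → E) →ₗ[ℝ] (SG G →L[ℝ] (Fin n → E)) :=
    (LinearMap.toContinuousLinearMap (𝕜 := ℝ) (E := SG G) (F' := Fin n → E)).toLinearMap ∘ₗ Lam G
  have hF : Continuous F :=
    LinearMap.continuous_of_finiteDimensional (𝕜 := ℝ) (E := Fin n → E)
      (F' := SG G →L[ℝ] (Fin n → E)) F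
  have := (ContinuousLinearMap.isOpen_injective (𝕜 := ℝ) (E := SG G) (F := Fin n → E)).preimage hF
  convert this using 1
  ext p
  exact stressFree_iff G p

theorem finite_bad (G : SimpleGraph (Fin n)) {p₀ : Fin n → E} (h : StressFree G p₀)
    (x : Fin n → E) : {t : ℝ | ¬ StressFree G (p₀ + t • x)}.Finite := by
  rw [stressFree_iff, ← LinearMap.ker_eq_bot] at h
  obtain ⟨g, hg⟩ := (Lam G p₀).exists_leftInverse_of_injective h
  let B : Module.End ℝ (SG G) := g ∘ₗ Lam G x
  refine (B.finite_hasEigenvalue.image fun μ => -μ⁻¹).subset fun t ht => ?_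
  rw [Set.mem_ofPred_eq, stressFree_iff, ← LinearMap.ker_eq_bot, LinearMap.ker_eq_bot'] at ht
  push Not at ht
  obtain ⟨Ω, h1, h2⟩ := ht
  have h3 : Ω + t • B Ω = 0 := by
    have := congrArg g h1
    simp only [map_add, map_smul, LinearMap.add_apply, LinearMap.smul_apply, map_zero] at this
    have h4 : g (Lam G p₀ Ω) = Ω := LinearMap.congr_fun hg Ω
    rw [h4] at this
    exact this
  have ht0 : t ≠ 0 := by
    rintro rfl
    exact h2 (by simpa using h3)
  refine ⟨-t⁻¹, ?_, by simp⟩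
  refine Module.End.hasEigenvalue_of_hasEigenvector (x := Ω) ⟨?_, h2⟩
  rw [Module.End.mem_eigenspace_iff]
  have h5 : t • B Ω = -Ω := by rw [eq_neg_iff_add_eq_zero, add_comm]; exact h3
  calc B Ω = t⁻¹ • (t • B Ω) := by rw [smul_smul, inv_mul_cancel₀ ht0, one_smul]
    _ = -t⁻¹ • Ω := by rw [h5, smul_neg]; exact (neg_smul _ _).symm

theorem ae_mem_of_lines {V : Type*} [NormedAddCommGroup V] [NormedSpace ℝ V]
    [FiniteDimensional ℝ V] [MeasurableSpace V] [BorelSpace V] (μ : Measure V)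
    [μ.IsAddHaarMeasure] {U : Set V} (hU : IsOpen U) (p₀ : V)
    (h : ∀ x, {t : ℝ | p₀ + t • x ∉ U}.Finite) : ∀ᵐ p ∂μ, p ∈ U := by
  have h1 : ∀ᵐ x ∂μ, ∀ᵐ t : ℝ, p₀ + t • x ∈ U :=
    Filter.Eventually.of_forall fun x => (h x).countable.ae_notMem volume |>.mono
      fun t ht => by simpa using ht
  have hm : MeasurableSet {z : V × ℝ | p₀ + z.2 • z.1 ∈ U} :=
    (hU.preimage (by fun_prop : Continuous fun z : V × ℝ => p₀ + z.2 • z.1)).measurableSet
  rw [Measure.ae_ae_comm hm] at h1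
  obtain ⟨t, ht, ht0⟩ := (h1.and ((Set.countable_singleton (0 : ℝ)).ae_notMem volume)).exists
  have ht0' : t ≠ 0 := by simpa using ht0
  rw [ae_iff] at ht ⊢
  have h2 : {x | ¬ p₀ + t • x ∈ U} = (fun x => t • x) ⁻¹' ((fun x => p₀ + x) ⁻¹' {p | ¬ p ∈ U}) :=
    rfl
  rw [h2, Measure.addHaar_preimage_smul μ ht0', measure_preimage_add] at ht
  rcases mul_eq_zero.1 ht with h3 | h3
  · exfalso
    rw [ENNReal.ofReal_eq_zero] at h3
    have : 0 < |(t ^ Module.finrank ℝ V)⁻¹| := abs_pos.2 (inv_ne_zero (pow_ne_zero _ ht0'))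
    linarith
  · exact h3

theorem ae_stressFree {d : ℕ} (G : SimpleGraph (Fin n))
    {p₀ : Fin n → EuclideanSpace ℝ (Fin d)} (h : StressFree G p₀) :
    ∀ᵐ p : Fin n → EuclideanSpace ℝ (Fin d), StressFree G p :=
  ae_mem_of_lines volume (isOpen_stressFree G) p₀ (finite_bad G h)

end Pool.Agent.MP_b9449f_co.H8
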