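import Pool.Agent.MP_b9449f_co.H8.Comb

set_option autoImplicit false

namespace Pool.Agent.MP_b9449f_co.H8

open Finset

open Classical in
noncomputable def dl (p q : Prop) : ℕ := if (p ↔ q) then 0 else 1

/-- number of faces separating two objects -/
noncomputable def dd (n : ℕ) (X Y : ℕ → ℕ → Prop) : ℕ :=
  ∑ F ∈ range (n + 1) ×ˢ range (n + 1), dl (X F.1 F.2) (Y F.1 F.2)

def vI (i : ℕ) (a b : ℕ) : Prop := a ≤ i ∧ i < b

def pI (E : ℕ → ℕ → Prop) (x : ℕ) (a b : ℕ) : Prop := x ∈ PP E a b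

lemma dl_comm (p q : Prop) : dl p q = dl q p := by
  by_cases p <;> by_cases q <;> simp_all [dl]

lemma dd_comm (n : ℕ) (X Y : ℕ → ℕ → Prop) : dd n X Y = dd n Y X :=
  sum_congr rfl fun _ _ => dl_comm _ _

lemma dl_tri (p q r : Prop) : dl p q ≤ dl p r + dl q r := by
  by_cases p <;> by_cases q <;> by_cases r <;> simp_all [dl]

lemma dl_tri4 (p q r s : Prop) : dl p q ≤ dl p r + dl r s + dl q s := by
  by_cases p <;> by_cases q <;> by_cases r <;> by_cases s <;> simp_all [dl]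

lemma dd_tri (n : ℕ) (X Y Z : ℕ → ℕ → Prop) : dd n X Y ≤ dd n X Z + dd n Y Z := by
  simp only [dd, ← sum_add_distrib]
  exact sum_le_sum fun _ _ => dl_tri _ _ _

lemma dd_eq4 (n : ℕ) (X Y Z W : ℕ → ℕ → Prop)
    (h : ∀ a ≤ n, ∀ b ≤ n, (X a b → Y a b → Z a b ∧ W a b) ∧
      (¬ X a b → ¬ Y a b → ¬ Z a b ∧ ¬ W a b) ∧
      (X a b → ¬ Y a b → W a b → Z a b) ∧ (¬ X a b → Y a b → Z a b → W a b)) :
    dd n X Z + dd n Z W + dd n Y W = dd n X Y := by
  simp only [dd, ← sum_add_distrib]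
  refine sum_congr rfl fun F hF => ?_
  obtain ⟨h1, h2⟩ := mem_product.1 hF
  have := h F.1 (by have := mem_range.1 h1; omega) F.2 (by have := mem_range.1 h2; omega)
  by_cases X F.1 F.2 <;> by_cases Y F.1 F.2 <;> by_cases Z F.1 F.2 <;> by_cases W F.1 F.2 <;>
    simp_all [dl]

lemma dd_lt4 (n : ℕ) (X Y Z W : ℕ → ℕ → Prop) (a b : ℕ) (ha : a ≤ n) (hb : b ≤ n)
    (h : (X a b ∧ Y a b ∧ ¬ (Z a b ∧ W a b)) ∨ (¬ X a b ∧ ¬ Y a b ∧ (Z a b ∨ W a b)) ∨
      (X a b ∧ ¬ Y a b ∧ W a b ∧ ¬ Z a b)) :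
    dd n X Y < dd n X Z + dd n Z W + dd n Y W := by
  simp only [dd, ← sum_add_distrib]
  refine sum_lt_sum (fun _ _ => dl_tri4 _ _ _ _) ⟨(a, b), ?_, ?_⟩
  · exact mem_product.2 ⟨mem_range.2 (by omega), mem_range.2 (by omega)⟩
  · by_cases X a b <;> by_cases Y a b <;> by_cases Z a b <;> by_cases W a b <;> simp_all [dl]

lemma dd_pos (n : ℕ) (E : ℕ → ℕ → Prop) {u v : ℕ} (huv : u < v) (hv : v ≤ n) :
    1 ≤ dd n (pI E u) (pI E v) := by
  have h1 : dl (pI E u 0 v) (pI E v 0 v) = 1 := by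
    simp [dl, pI, PP_zero, huv]
  rw [← h1]
  exact single_le_sum (f := fun F : ℕ × ℕ => dl (pI E u F.1 F.2) (pI E v F.1 F.2))
    (fun _ _ => Nat.zero_le _) (a := (0, v))
    (mem_product.2 ⟨mem_range.2 (by omega), mem_range.2 (by omega)⟩)

variable {n k : ℕ} {T : SimpleGraph (Fin n)}

lemma between (hT : IsMultiTriangulation k T) {i j : ℕ} (hij : i < j) (hj : j < n)
    (hE : ¬ ER T i j) :
    dd n (vI i) (pI (ER T) (row (ER T) i j)) +
      dd n (pI (ER T) (row (ER T) i j)) (pI (ER T) (col (ER T) i j)) +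
      dd n (vI j) (pI (ER T) (col (ER T) i j)) = dd n (vI i) (vI j) := by
  have ht : ¬ turn (ER T) i j := fun h => hE ((turn_iff hT hij hj).1 h)
  obtain ⟨hk, hlt, hk'⟩ := cross_middle hT hij hj hE
  have hx1 : row (ER T) i j ∈ PP (ER T) i (j + 1) := PP_mono _ le_rfl (by omega) (row_mem _ hij)
  have hy1 : col (ER T) i j ∈ PP (ER T) i (j + 1) := col_mem _ hij.le
  have hx0 : row (ER T) i j ∉ PP (ER T) (i + 1) j := row_notMem _ hij
  have hy0 : col (ER T) i j ∉ PP (ER T) (i + 1) j :=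
    fun h => col_notMem _ hij.le (PP_mono _ (by omega) le_rfl h)
  have hout : ∀ z, k ≤ z → z ∈ PP (ER T) i (j + 1) → z ∉ PP (ER T) (i + 1) j → ∀ a ≤ n, ∀ b ≤ n,
      ¬ vI i a b → ¬ vI j a b → z ∉ PP (ER T) a b := by
    intro z hz h1 h0 a ha b hb hi hj' hm
    simp only [vI] at hi hj'
    by_cases c1 : b ≤ i
    · have h2 : z ∈ PP (ER T) 0 i := PP_mono _ (Nat.zero_le _) c1 hm
      rw [PP_zero, mem_range] at h2
      exact middle_not_mem hT hz h2 (by omega) (PP_mono _ le_rfl (by omega) h1)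
    · by_cases c2 : j + 1 ≤ a
      · have h2 : z ∈ PP (ER T) 0 (j + 1) := PP_mono _ (Nat.zero_le _) le_rfl h1
        rw [PP_zero, mem_range] at h2
        exact middle_not_mem hT hz h2 (by omega) (PP_mono _ c2 hb hm)
      · exact h0 (PP_mono _ (by omega) (by omega) hm)
  refine dd_eq4 n _ _ _ _ fun a ha b hb => ⟨?_, ?_, ?_, ?_⟩
  · intro h1 h2
    simp only [vI] at h1 h2
    exact ⟨PP_mono _ h1.1 h2.2 hx1, PP_mono _ h1.1 h2.2 hy1⟩
  · intro h1 h2
    exact ⟨hout _ hk hx1 hx0 a ha b hb h1 h2, hout _ (by omega) hy1 hy0 a ha b hb h1 h2⟩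
  · intro h1 h2 h3
    simp only [vI] at h1 h2
    by_contra h4
    exact no_recross _ hlt (a' := i) (b' := j) h1.1 (by omega) h3 h4 (row_mem _ hij)
      (col_notMem _ hij.le)
  · intro h1 h2 h3
    simp only [vI] at h1 h2
    by_contra h4
    refine no_recross _ hlt (a := i + 1) (b := j + 1) (a' := a) (b' := b) (by omega) (by omega)
      ?_ ?_ h3 h4
    · rw [PP_not _ hij ht]; exact mem_insert_self _ _
    · rw [PP_not _ hij ht, mem_insert, not_or]
      exact ⟨by omega, hx0⟩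

lemma not_between (E : ℕ → ℕ → Prop) {i j : ℕ} (hij : i < j) (hj : j < n) {u v : ℕ} (huv : u ≠ v)
    (hne : ¬ (u = row E i j ∧ v = col E i j)) :
    dd n (vI i) (vI j) < dd n (vI i) (pI E u) + dd n (pI E u) (pI E v) + dd n (vI j) (pI E v) := by
  by_cases h1 : u ∈ PP E i (j + 1) ∧ v ∈ PP E i (j + 1)
  swap
  · refine dd_lt4 n _ _ _ _ i (j + 1) (by omega) (by omega) (Or.inl ⟨?_, ?_, h1⟩) <;>
      simp only [vI] <;> omega
  by_cases h2 : u ∈ PP E (i + 1) j ∨ v ∈ PP E (i + 1) j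
  · refine dd_lt4 n _ _ _ _ (i + 1) j (by omega) (by omega) (Or.inr (Or.inl ⟨?_, ?_, h2⟩)) <;>
      simp only [vI] <;> omega
  rw [PP_top E hij.le, PP_left E hij] at h1
  simp only [mem_insert] at h1
  have h3 : u = col E i j ∧ v = row E i j := by
    push Not at h2
    obtain ⟨h1 | h1 | h1, h1' | h1' | h1'⟩ := h1 <;> simp_all
  obtain ⟨rfl, rfl⟩ := h3
  refine dd_lt4 n _ _ _ _ i j (by omega) (by omega) (Or.inr (Or.inr ⟨?_, ?_, ?_, ?_⟩))
  · simp only [vI]; omega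
  · simp only [vI]; omega
  · exact row_mem E hij
  · exact col_notMem E hij.le

/-- combinatorial interface -/
theorem exists_metric (hT : IsMultiTriangulation k T) :
    ∃ (dv : Fin n → Fin (n - 2 * k) → ℕ) (dm : Fin (n - 2 * k) → Fin (n - 2 * k) → ℕ),
      (∀ R S, dm R S = dm S R) ∧ (∀ R S, R ≠ S → 1 ≤ dm R S) ∧
      ∀ S S', S < S' → ∃ i j : Fin n, i ≠ j ∧ ¬ T.Adj i j ∧
        (∀ R, dv i S + dm S S' + dv j S' ≤ dv i R + dv j R) ∧
        ∀ R R', R ≠ R' → ¬ (R = S ∧ R' = S') →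
          dv i S + dm S S' + dv j S' < dv i R + dm R R' + dv j R' := by
  refine ⟨fun i R => dd n (vI i) (pI (ER T) (k + R)),
    fun R S => dd n (pI (ER T) (k + R)) (pI (ER T) (k + S)), fun R S => dd_comm _ _ _, ?_, ?_⟩
  · intro R S hRS
    have hR := R.2
    have hS := S.2
    rcases lt_or_gt_of_ne hRS with h | h
    · exact dd_pos n _ (by have : (R : ℕ) < S := h; omega) (by omega)
    · simp only
      rw [dd_comm]
      exact dd_pos n _ (by have : (S : ℕ) < R := h; omega) (by omega)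
  · intro S S' hSS
    have hS := S.2
    have hS' := S'.2
    have hlt : (S : ℕ) < S' := hSS
    obtain ⟨i, j, hij, hj, hr, hc, hE⟩ := pair_cross hT (u := k + S) (v := k + S') (by omega)
      (by omega) (by omega)
    have hb := between hT hij hj hE
    rw [hr, hc] at hb
    refine ⟨⟨i, hij.trans hj⟩, ⟨j, hj⟩, fun h => ?_, fun h => hE ⟨_, _, h⟩, fun R => ?_,
      fun R R' hRR hne => ?_⟩
    · simp at h; omega
    · simp only
      rw [hb]; exact dd_tri _ _ _ _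
    · simp only
      rw [hb]
      refine not_between _ hij hj (fun h => hRR (Fin.ext (by omega))) ?_
      rw [hr, hc]
      rintro ⟨h1, h2⟩
      exact hne ⟨Fin.ext (by omega), Fin.ext (by omega)⟩

theorem card_nonedges (hT : IsMultiTriangulation k T) :
    Nat.card {e : Fin n × Fin n // e.1 < e.2 ∧ ¬ T.Adj e.1 e.2} ≤ (n - 2 * k).choose 2 := by
  classical
  have hm : ∀ e : {e : Fin n × Fin n // e.1 < e.2 ∧ ¬ T.Adj e.1 e.2},
      k ≤ row (ER T) e.1.1 e.1.2 ∧ row (ER T) e.1.1 e.1.2 < col (ER T) e.1.1 e.1.2 ∧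
      col (ER T) e.1.1 e.1.2 + k < n :=
    fun e => cross_middle hT e.2.1 e.1.2.2 (fun ⟨_, _, h⟩ => e.2.2 h)
  let f : {e : Fin n × Fin n // e.1 < e.2 ∧ ¬ T.Adj e.1 e.2} →
      {a : Sym2 (Fin (n - 2 * k)) // ¬ a.IsDiag} := fun e =>
    ⟨s(⟨row (ER T) e.1.1 e.1.2 - k, by have := hm e; omega⟩,
       ⟨col (ER T) e.1.1 e.1.2 - k, by have := hm e; omega⟩), by
      have := hm e
      simp only [Sym2.mk_isDiag_iff, Fin.mk.injEq]; omega⟩
  have hf : Function.Injective f := by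
    intro e e' h
    have h1 := hm e
    have h2 := hm e'
    simp only [f, Subtype.mk.injEq, Sym2.eq_iff, Fin.mk.injEq] at h
    have h3 := cross_inj (ER T) (i := e.1.1) (j := e.1.2) (i' := e'.1.1) (j' := e'.1.2) e.2.1 e'.2.1
      (fun h => e.2.2 ((turn_iff hT e.2.1 e.1.2.2).1 h).2.2)
      (fun h => e'.2.2 ((turn_iff hT e'.2.1 e'.1.2.2).1 h).2.2) (by omega) (by omega)
    exact Subtype.ext (Prod.ext (Fin.ext h3.1) (Fin.ext h3.2))
  have h4 := Nat.card_le_card_of_injective f hf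
  rwa [Nat.card_eq_fintype_card (α := {a : Sym2 (Fin (n - 2 * k)) // ¬ a.IsDiag}),
    Sym2.card_subtype_not_diag, Fintype.card_fin] at h4

end Pool.Agent.MP_b9449f_co.H8
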