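import Pool.Agent.MP_b9449f_co.H8.Generic
import Pool.Agent.MP_b9449f_co.H8.Defs

set_option autoImplicit false

namespace Pool.Agent.MP_b9449f_co.H8

open Finset MeasureTheory Filter Topology
open scoped RealInnerProductSpace

variable {n : ℕ} {E : Type*} [NormedAddCommGroup E] [InnerProductSpace ℝ E]

lemma energy (Ω : Fin n → Fin n → ℝ) (a u : Fin n → E) (h1 : ∀ i j, Ω i j = Ω j i)
    (h3 : ∀ i, ∑ j, Ω i j = 0) (h4 : ∀ i, ∑ j, Ω i j • a j = 0) :
    ∑ i, ∑ j, Ω i j * ⟪a i - a j, u i - u j⟫ = 0 := by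
  have e1 : ∑ i, ∑ j, Ω i j * ⟪a i, u i⟫ = 0 := by
    simp only [← sum_mul, h3, zero_mul, sum_const_zero]
  have e2 : ∑ i, ∑ j, Ω i j * ⟪a j, u j⟫ = 0 := by
    rw [sum_comm, ← e1]
    exact sum_congr rfl fun i _ => sum_congr rfl fun j _ => by rw [h1 j i]
  have e3 : ∑ i, ∑ j, Ω i j * ⟪a j, u i⟫ = 0 := by
    refine sum_eq_zero fun i _ => ?_
    have := congrArg (fun v => ⟪v, u i⟫) (h4 i)
    simpa [sum_inner, inner_smul_left] using this
  have e4 : ∑ i, ∑ j, Ω i j * ⟪a i, u j⟫ = 0 := by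
    rw [sum_comm, ← e3]
    exact sum_congr rfl fun i _ => sum_congr rfl fun j _ => by rw [h1 j i]
  simp only [inner_sub_left, inner_sub_right, mul_sub, sum_sub_distrib, e1, e2, e3, e4, sub_zero]

theorem inf_rigid [FiniteDimensional ℝ E] (G : SimpleGraph (Fin n))
    (hcount : Nat.card {e : Fin n × Fin n // e.1 < e.2 ∧ ¬ G.Adj e.1 e.2} ≤
      (n - Module.finrank ℝ E).choose 2)
    {a : Fin n → E} (ha : StressFree G a) (u : Fin n → E)
    (hu : ∀ i j, G.Adj i j → ⟪a i - a j, u i - u j⟫ = 0) (i₀ j₀ : Fin n) :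
    ⟪a i₀ - a j₀, u i₀ - u j₀⟫ = 0 := by
  classical
  wlog hlt : i₀ < j₀ generalizing i₀ j₀
  · rcases eq_or_lt_of_le (not_lt.1 hlt) with h | h
    · simp [h]
    · rw [← neg_sub (a j₀), ← neg_sub (u j₀), inner_neg_neg]
      exact this j₀ i₀ h
  by_cases hadj : G.Adj i₀ j₀
  · exact hu _ _ hadj
  let Ψ : (Fin n → ℝ) →ₗ[ℝ] ℝ × E := Fintype.linearCombination ℝ (fun i => ((1 : ℝ), a i))
  set r := Module.finrank ℝ (LinearMap.ker Ψ) with hr
  have hrn : n - Module.finrank ℝ E ≤ r + 1 := by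
    have h1 := LinearMap.finrank_range_add_finrank_ker Ψ
    have h2 := Submodule.finrank_le (LinearMap.range Ψ)
    simp only [Module.finrank_fintype_fun_eq_card, Fintype.card_fin, Module.finrank_prod,
      Module.finrank_self] at h1 h2
    omega
  let b := Module.finBasis ℝ (LinearMap.ker Ψ)
  let w : Fin r → Fin n → ℝ := fun s => (b s).1
  have hw : LinearIndependent ℝ w :=
    b.linearIndependent.map' (LinearMap.ker Ψ).subtype (Submodule.ker_subtype _)
  have hw1 : ∀ s, ∑ j, w s j = 0 ∧ ∑ j, w s j • a j = 0 := by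
    intro s
    have h := (b s).2
    rw [LinearMap.mem_ker] at h
    simp only [Ψ, Fintype.linearCombination_apply, Prod.ext_iff, Prod.fst_sum, Prod.snd_sum,
      Prod.smul_mk, smul_eq_mul, mul_one, Prod.fst_zero, Prod.snd_zero] at h
    exact h
  let Om : (Sym2 (Fin r) → ℝ) → Fin n → Fin n → ℝ :=
    fun μ i j => ∑ s, ∑ t, w s i * μ s(s, t) * w t j
  have hO1 : ∀ μ i j, Om μ i j = Om μ j i := by
    intro μ i j
    simp only [Om]
    rw [sum_comm]
    exact sum_congr rfl fun s _ => sum_congr rfl fun t _ => by rw [Sym2.eq_swap]; ring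
  have hO3 : ∀ μ i, ∑ j, Om μ i j = 0 := by
    intro μ i
    simp only [Om]
    rw [sum_comm]
    refine sum_eq_zero fun s _ => ?_
    rw [sum_comm]
    refine sum_eq_zero fun t _ => ?_
    rw [← mul_sum, (hw1 t).1, mul_zero]
  have hO4 : ∀ μ i, ∑ j, Om μ i j • a j = 0 := by
    intro μ i
    simp only [Om, sum_smul]
    rw [sum_comm]
    refine sum_eq_zero fun s _ => ?_
    rw [sum_comm]
    refine sum_eq_zero fun t _ => ?_
    simp only [mul_smul (w s i * μ s(s, t))]
    rw [← smul_sum, (hw1 t).2, smul_zero]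
  let Φ : (Sym2 (Fin r) → ℝ) →ₗ[ℝ]
      ({e : Fin n × Fin n // e.1 < e.2 ∧ ¬ G.Adj e.1 e.2} → ℝ) :=
    { toFun := fun μ e => Om μ e.1.1 e.1.2
      map_add' := fun μ ν => by
        funext e; simp [Om, mul_add, add_mul, sum_add_distrib]
      map_smul' := fun c μ => by
        funext e
        simp only [Om, Pi.smul_apply, smul_eq_mul, RingHom.id_apply, mul_sum]
        exact sum_congr rfl fun s _ => sum_congr rfl fun t _ => by ring }
  have hinj : Function.Injective Φ := by
    rw [← LinearMap.ker_eq_bot, LinearMap.ker_eq_bot']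
    intro μ hμ
    have h0 : Om μ = 0 := by
      refine ha _ (hO1 μ) (fun i j hij hadj => ?_) (hO3 μ) (hO4 μ)
      rcases lt_or_gt_of_ne hij with h | h
      · exact congrFun hμ ⟨(i, j), h, hadj⟩
      · rw [hO1]; exact congrFun hμ ⟨(j, i), h, fun h' => hadj h'.symm⟩
    have h1 : ∀ j s, ∑ t, μ s(s, t) * w t j = 0 := by
      intro j
      refine Fintype.linearIndependent_iff.1 hw (fun s => ∑ t, μ s(s, t) * w t j) ?_
      funext i
      have := congrFun (congrFun h0 i) j
      simp only [Om, Pi.zero_apply] at this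
      simp only [Finset.sum_apply, Pi.smul_apply, smul_eq_mul, Pi.zero_apply, sum_mul]
      rw [← this]
      exact sum_congr rfl fun s _ => sum_congr rfl fun t _ => by ring
    funext z
    induction z using Sym2.ind with
    | _ s t =>
      refine Fintype.linearIndependent_iff.1 hw (fun t => μ s(s, t)) ?_ t
      funext j
      simpa using h1 j s
  have hsurj : Function.Surjective Φ := by
    refine (LinearMap.injective_iff_surjective_of_finrank_eq_finrank ?_).1 hinj
    refine le_antisymm (LinearMap.finrank_le_finrank_of_injective hinj) ?_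
    simp only [Module.finrank_fintype_fun_eq_card, Sym2.card, Fintype.card_fin]
    rw [← Nat.card_eq_fintype_card]
    exact hcount.trans (Nat.choose_le_choose 2 hrn)
  obtain ⟨μ, hμ⟩ := hsurj (Pi.single ⟨(i₀, j₀), hlt, hadj⟩ 1)
  have hen := energy (Om μ) a u (hO1 μ) (hO3 μ) (hO4 μ)
  set X := ⟪a i₀ - a j₀, u i₀ - u j₀⟫ with hX
  have hlt' : ∀ i j, i < j → Om μ i j * ⟪a i - a j, u i - u j⟫ =
      if i = i₀ ∧ j = j₀ then X else 0 := by
    intro i j h
    by_cases hij : G.Adj i j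
    · rw [hu i j hij, mul_zero, if_neg]
      rintro ⟨rfl, rfl⟩
      exact hadj hij
    · have h1 : Om μ i j = _ := congrFun hμ ⟨(i, j), h, hij⟩
      rw [h1, Pi.single_apply]
      simp only [Subtype.mk.injEq, Prod.mk.injEq]
      split_ifs with h2
      · obtain ⟨rfl, rfl⟩ := h2
        rw [one_mul]
      · rw [zero_mul]
  have hterm : ∀ i j, Om μ i j * ⟪a i - a j, u i - u j⟫ =
      (if i = i₀ ∧ j = j₀ then X else 0) + (if j = i₀ ∧ i = j₀ then X else 0) := by
    intro i j
    rcases lt_trichotomy i j with h | h | h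
    · rw [hlt' i j h, if_neg (show ¬ (j = i₀ ∧ i = j₀) by rintro ⟨rfl, rfl⟩; exact lt_asymm h hlt),
        add_zero]
    · subst h
      have : ¬ (i = i₀ ∧ i = j₀) := by rintro ⟨rfl, rfl⟩; exact lt_irrefl _ hlt
      simp [this]
    · rw [hO1, ← neg_sub (a j), ← neg_sub (u j), inner_neg_neg, hlt' j i h,
        if_neg (show ¬ (i = i₀ ∧ j = j₀) by rintro ⟨rfl, rfl⟩; exact lt_asymm h hlt), zero_add]
  simp only [hterm, sum_add_distrib, ite_and, sum_ite_eq', mem_univ, if_true] at hen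
  have h2 : ∑ i, ∑ j, (if i = i₀ then if j = j₀ then X else 0 else 0) = X := by
    rw [sum_eq_single i₀ (fun i _ h => by simp [h]) (by simp)]; simp
  rw [h2] at hen
  linarith

theorem isRigid_of {d : ℕ} (i₀ : Fin n) (G : SimpleGraph (Fin n))
    (hcount : Nat.card {e : Fin n × Fin n // e.1 < e.2 ∧ ¬ G.Adj e.1 e.2} ≤ (n - d).choose 2)
    {p : Fin n → EuclideanSpace ℝ (Fin d)} (hp : StressFree G p) : IsRigid G p := by
  intro γ hγ h0 hlen
  let Z : Set unitInterval := {t | ∀ i j, dist (γ t i) (γ t j) = dist (p i) (p j)}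
  have hc : ∀ i, Continuous fun t => γ t i := fun i => (continuous_apply i).comp hγ
  have hclosed : IsClosed Z := by
    have : Z = ⋂ i, ⋂ j, {t | dist (γ t i) (γ t j) = dist (p i) (p j)} := by
      ext t; simp [Z]
    rw [this]
    exact isClosed_iInter fun i => isClosed_iInter fun j =>
      isClosed_eq ((hc i).dist (hc j)) continuous_const
  have hopen : IsOpen Z := by
    rw [isOpen_iff_mem_nhds]
    intro t₀ ht₀
    obtain ⟨A, b, hA⟩ := exists_isometry i₀ p (γ t₀) ht₀
    have hq : StressFree G (γ t₀) := hp.map A.toLinearEquiv.toLinearMap A.injective b hA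
    have hm : Continuous fun t => (1 / 2 : ℝ) • (γ t + γ t₀) := by fun_prop
    have h1 : ∀ᶠ t in 𝓝 t₀, StressFree G ((1 / 2 : ℝ) • (γ t + γ t₀)) := by
      refine hm.continuousAt.eventually_mem ((isOpen_stressFree G).mem_nhds ?_)
      have : (1 / 2 : ℝ) • (γ t₀ + γ t₀) = γ t₀ := by rw [← two_smul ℝ, smul_smul]; norm_num
      rw [Set.mem_ofPred_eq, this]
      exact hq
    filter_upwards [h1] with t ht
    have key : ∀ i j, ⟪((1 / 2 : ℝ) • (γ t + γ t₀)) i - ((1 / 2 : ℝ) • (γ t + γ t₀)) j,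
        (γ t - γ t₀) i - (γ t - γ t₀) j⟫ =
        (dist (γ t i) (γ t j) ^ 2 - dist (γ t₀ i) (γ t₀ j) ^ 2) / 2 := by
      intro i j
      have e1 : ((1 / 2 : ℝ) • (γ t + γ t₀)) i - ((1 / 2 : ℝ) • (γ t + γ t₀)) j =
          (1 / 2 : ℝ) • ((γ t i - γ t j) + (γ t₀ i - γ t₀ j)) := by
        simp only [Pi.smul_apply, Pi.add_apply, ← smul_sub]
        congr 1; abel
      have e2 : (γ t - γ t₀) i - (γ t - γ t₀) j = (γ t i - γ t j) - (γ t₀ i - γ t₀ j) := by
        simp only [Pi.sub_apply]; abel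
      rw [e1, e2, inner_smul_left, dist_eq_norm, dist_eq_norm]
      generalize γ t i - γ t j = x
      generalize γ t₀ i - γ t₀ j = y
      rw [inner_add_left, inner_sub_right, inner_sub_right, real_inner_self_eq_norm_sq,
        real_inner_self_eq_norm_sq, real_inner_comm x y]
      simp only [conj_trivial]
      ring
    intro i j
    have h2 := inf_rigid G (by rwa [finrank_euclideanSpace_fin]) ht (γ t - γ t₀)
      (fun i j hij => by rw [key, hlen t i j hij, hlen t₀ i j hij]; ring) i j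
    rw [key, ht₀ i j] at h2
    rw [← sq_eq_sq₀ dist_nonneg dist_nonneg]
    linarith
  have huniv : Z = Set.univ :=
    IsClopen.eq_univ ⟨hclosed, hopen⟩ ⟨0, fun i j => by rw [h0]⟩
  intro t
  have ht : t ∈ Z := huniv ▸ Set.mem_univ t
  obtain ⟨A, b, hA⟩ := exists_isometry i₀ p (γ t) ht
  exact ⟨A.toIsometryEquiv.trans (IsometryEquiv.addRight b), fun v => by simpa using hA v⟩

end Pool.Agent.MP_b9449f_co.H8
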