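import Mathlib

set_option autoImplicit false

namespace Pool.Agent.MP_b9449f_co.H8

open Finset

/-- no nonzero equilibrium stress (matrix form) -/
def StressFree {n : ℕ} {V : Type*} [AddCommGroup V] [Module ℝ V] (G : SimpleGraph (Fin n))
    (p : Fin n → V) : Prop :=
  ∀ Ω : Fin n → Fin n → ℝ, (∀ i j, Ω i j = Ω j i) → (∀ i j, i ≠ j → ¬ G.Adj i j → Ω i j = 0) →
    (∀ i, ∑ j, Ω i j = 0) → (∀ i, ∑ j, Ω i j • p j = 0) → Ω = 0

/-- the key property of a family of vectors `c R` -/
def Dom {n : ℕ} {M : Type*} [Fintype M] (G : SimpleGraph (Fin n)) (c : M → Fin n → ℝ) : Prop :=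
  ∀ l : M → M → ℝ, (∀ R S, l R S = l S R) → (∀ R, ∑ S, l R S = 0) →
    (∀ i j, i ≠ j → ¬ G.Adj i j → ∑ R, ∑ S, c R i * l R S * c S j = 0) → l = 0

theorem exists_dom {n : ℕ} {M : Type*} [Fintype M] [LinearOrder M] (G : SimpleGraph (Fin n))
    (dv : Fin n → M → ℕ) (dm : M → M → ℕ) (hsymm : ∀ R S, dm R S = dm S R)
    (hpos : ∀ R S, R ≠ S → 1 ≤ dm R S)
    (hmain : ∀ S S', S < S' → ∃ i j : Fin n, i ≠ j ∧ ¬ G.Adj i j ∧
        (∀ R, dv i S + dm S S' + dv j S' ≤ dv i R + dv j R) ∧
        ∀ R R', R ≠ R' → ¬ (R = S ∧ R' = S') →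
          dv i S + dm S S' + dv j S' < dv i R + dm R R' + dv j R') :
    ∃ c : M → Fin n → ℝ, Dom G c := by
  classical
  set m : ℝ := (Fintype.card M : ℝ) with hm
  have hm0 : 0 ≤ m := by positivity
  set ε : ℝ := 1 / (2 * (m + 1) ^ 3) with hε
  have hε0 : 0 < ε := by positivity
  have hε1 : ε ≤ 1 := by
    rw [hε, div_le_one (by positivity)]
    nlinarith [pow_nonneg hm0 2, pow_nonneg hm0 3]
  refine ⟨fun R i => ε ^ dv i R, fun l hl hrow hz => ?_⟩
  suffices hoff : ∀ R S, R < S → l R S = 0 by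
    have hoff' : ∀ R S, R ≠ S → l R S = 0 := by
      intro R S h
      rcases lt_or_gt_of_ne h with h | h
      · exact hoff R S h
      · rw [hl]; exact hoff S R h
    funext R S
    by_cases h : R = S
    · subst h
      have := hrow R
      rwa [sum_eq_single R (fun S _ hS => hoff' R S hS.symm) (by simp)] at this
    · exact hoff' R S h
  intro R₀ S₀ h₀
  obtain ⟨⟨S, S'⟩, hS, hmax⟩ := exists_max_image
    (univ.filter fun q : M × M => q.1 < q.2) (fun q => |l q.1 q.2| / ε ^ dm q.1 q.2)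
    ⟨(R₀, S₀), by simpa using h₀⟩
  have hSS : S < S' := by simpa using hS
  set μ : ℝ := |l S S'| / ε ^ dm S S' with hμ
  have hμ0 : 0 ≤ μ := by positivity
  have hb : ∀ R R', R ≠ R' → |l R R'| ≤ μ * ε ^ dm R R' := by
    have hb' : ∀ R R', R < R' → |l R R'| ≤ μ * ε ^ dm R R' := by
      intro R R' h
      have := hmax (R, R') (by simpa using h)
      simp only at this
      rwa [div_le_iff₀ (by positivity)] at this
    intro R R' h
    rcases lt_or_gt_of_ne h with h | h
    · exact hb' R R' h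
    · rw [hl, hsymm]; exact hb' R' R h
  have hbd : ∀ R, |l R R| ≤ m * μ * ε := by
    intro R
    have h1 := hrow R
    rw [← add_sum_erase _ _ (mem_univ R)] at h1
    have h2 : l R R = - ∑ x ∈ univ.erase R, l R x := by linarith
    rw [h2, abs_neg]
    refine (abs_sum_le_sum_abs _ _).trans ?_
    have h3 : ∀ x ∈ univ.erase R, |l R x| ≤ μ * ε := by
      intro x hx
      have hne : R ≠ x := (ne_of_mem_erase hx).symm
      refine (hb R x hne).trans (mul_le_mul_of_nonneg_left ?_ hμ0)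
      calc ε ^ dm R x ≤ ε ^ 1 := pow_le_pow_of_le_one hε0.le hε1 (hpos R x hne)
        _ = ε := pow_one _
    refine (sum_le_card_nsmul _ _ _ h3).trans ?_
    rw [nsmul_eq_mul, mul_assoc]
    refine mul_le_mul_of_nonneg_right ?_ (by positivity)
    rw [hm]
    exact_mod_cast (card_le_univ _)
  obtain ⟨i, j, hij, hadj, hd1, hd2⟩ := hmain S S' hSS
  set D := dv i S + dm S S' + dv j S' with hD
  have h1 := hz i j hij hadj
  rw [← sum_product', ← add_sum_erase _ _ (mem_product.2 ⟨mem_univ S, mem_univ S'⟩ :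
    (S, S') ∈ (univ : Finset M) ×ˢ (univ : Finset M))] at h1
  have h2 : |ε ^ dv i S * l S S' * ε ^ dv j S'| = μ * ε ^ D := by
    rw [abs_mul, abs_mul, abs_of_pos (by positivity : 0 < ε ^ dv i S),
      abs_of_pos (by positivity : 0 < ε ^ dv j S'), hμ, hD, pow_add, pow_add]
    field_simp
  have h3 : ∀ q ∈ ((univ : Finset M) ×ˢ (univ : Finset M)).erase (S, S'),
      |ε ^ dv i q.1 * l q.1 q.2 * ε ^ dv j q.2| ≤ (m + 1) * μ * ε ^ (D + 1) := by
    rintro ⟨R, R'⟩ hq
    have hne : ¬ (R = S ∧ R' = S') := by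
      rintro ⟨rfl, rfl⟩
      exact (ne_of_mem_erase hq) rfl
    simp only
    rw [abs_mul, abs_mul, abs_of_pos (by positivity : 0 < ε ^ dv i R),
      abs_of_pos (by positivity : 0 < ε ^ dv j R')]
    by_cases h : R = R'
    · subst h
      have h4 : ε ^ (dv i R + dv j R) ≤ ε ^ D := pow_le_pow_of_le_one hε0.le hε1 (hd1 R)
      calc ε ^ dv i R * |l R R| * ε ^ dv j R = |l R R| * ε ^ (dv i R + dv j R) := by
            rw [pow_add]; ring
        _ ≤ (m * μ * ε) * ε ^ D := mul_le_mul (hbd R) h4 (by positivity) (by positivity)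
        _ = m * μ * ε ^ (D + 1) := by rw [pow_succ]; ring
        _ ≤ (m + 1) * μ * ε ^ (D + 1) := by gcongr; linarith
    · have h4 : ε ^ (dv i R + dm R R' + dv j R') ≤ ε ^ (D + 1) :=
        pow_le_pow_of_le_one hε0.le hε1 (hd2 R R' h hne)
      calc ε ^ dv i R * |l R R'| * ε ^ dv j R'
          ≤ ε ^ dv i R * (μ * ε ^ dm R R') * ε ^ dv j R' := by gcongr; exact hb R R' h
        _ = μ * ε ^ (dv i R + dm R R' + dv j R') := by rw [pow_add, pow_add]; ring
        _ ≤ μ * ε ^ (D + 1) := by gcongr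
        _ = 1 * μ * ε ^ (D + 1) := by ring
        _ ≤ (m + 1) * μ * ε ^ (D + 1) := by gcongr; linarith
  have h4 : μ * ε ^ D ≤ (m + 1) ^ 2 * ((m + 1) * μ * ε ^ (D + 1)) := by
    rw [← h2, eq_neg_of_add_eq_zero_left h1, abs_neg]
    refine (abs_sum_le_sum_abs _ _).trans ((sum_le_card_nsmul _ _ _ h3).trans ?_)
    rw [nsmul_eq_mul]
    refine mul_le_mul_of_nonneg_right ?_ (by positivity)
    have h5 : (((univ : Finset M) ×ˢ (univ : Finset M)).erase (S, S')).card ≤
        Fintype.card M * Fintype.card M := by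
      refine card_erase_le.trans ?_
      rw [card_product, card_univ]
    calc ((((univ : Finset M) ×ˢ (univ : Finset M)).erase (S, S')).card : ℝ) ≤ m * m := by
          rw [hm]; exact_mod_cast h5
      _ ≤ (m + 1) ^ 2 := by nlinarith
  have h5 : (m + 1) ^ 2 * ((m + 1) * μ * ε ^ (D + 1)) = μ * ε ^ D / 2 := by
    rw [pow_succ ε D]
    have : (m + 1) ^ 3 * ε = 1 / 2 := by rw [hε]; field_simp
    calc (m + 1) ^ 2 * ((m + 1) * μ * (ε ^ D * ε)) = ((m + 1) ^ 3 * ε) * (μ * ε ^ D) := by ring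
      _ = μ * ε ^ D / 2 := by rw [this]; ring
  have h6 : μ * ε ^ D ≤ 0 := by linarith
  have h7 : μ = 0 := by
    refine le_antisymm ?_ hμ0
    by_contra h
    have : 0 < μ * ε ^ D := mul_pos (not_le.1 h) (by positivity)
    linarith
  have h8 := hb R₀ S₀ h₀.ne
  rw [h7, zero_mul] at h8
  exact abs_nonpos_iff.1 h8

lemma Dom.eq_zero {n : ℕ} {M : Type*} [Fintype M] {G : SimpleGraph (Fin n)} {c : M → Fin n → ℝ}
    (h : Dom G c) (x : M → ℝ) (hx : ∑ R, x R = 0)
    (hz : ∀ i j, i ≠ j → (∑ R, x R * c R i) * (∑ R, x R * c R j) = 0) : x = 0 := by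
  have := h (fun R S => x R * x S) (fun R S => mul_comm _ _)
    (fun R => by rw [← mul_sum, hx, mul_zero]) (fun i j hij _ => by
      rw [← hz i j hij, sum_mul_sum]
      exact sum_congr rfl fun R _ => sum_congr rfl fun S _ => by ring)
  funext R
  have h1 := congrFun (congrFun this R) R
  simpa using h1

theorem exists_dom_sum {n : ℕ} {M : Type*} [Fintype M] (G : SimpleGraph (Fin n))
    (c : M → Fin n → ℝ) (h : Dom G c) :
    ∃ c' : M → Fin n → ℝ, Dom G c' ∧ ∀ x : M → ℝ, ∑ R, x R = 0 → ∑ i, ∑ R, x R * c' R i = 0 := by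
  classical
  let A : (M → ℝ) →ₗ[ℝ] (Fin n → ℝ) := Fintype.linearCombination ℝ c
  let σ : (M → ℝ) →ₗ[ℝ] ℝ := Fintype.linearCombination ℝ (fun _ => (1 : ℝ))
  have hA : ∀ x i, A x i = ∑ R, x R * c R i := by
    intro x i; simp [A, Fintype.linearCombination_apply]
  have hσ : ∀ x, σ x = ∑ R, x R := by
    intro x; simp [σ, Fintype.linearCombination_apply]
  let U : Submodule ℝ (Fin n → ℝ) := (LinearMap.ker σ).map A
  have hU : ∀ i, (Pi.single i 1 : Fin n → ℝ) ∉ U := by
    rintro i ⟨x, hx, hxi⟩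
    have hx' : ∑ R, x R = 0 := by rw [← hσ]; exact hx
    have h0 := h.eq_zero x hx' (fun a b hab => by
      rw [← hA, ← hA, hxi]
      by_cases ha : a = i
      · subst ha; simp [hab.symm]
      · simp [Pi.single_apply, ha])
    have := congrFun hxi i
    simp [h0] at this
  obtain ⟨φ, hφ, hφ'⟩ := Module.Dual.exists_forall_mem_ne_zero_of_forall_exists
    U.dualAnnihilator (fun i => Module.Dual.eval ℝ (Fin n → ℝ) (Pi.single i 1)) (fun i => by
      obtain ⟨f, hf, hf'⟩ := Submodule.exists_dual_map_eq_bot_of_notMem (hU i) inferInstance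
      refine ⟨f, ?_, by simpa using hf⟩
      rw [Submodule.mem_dualAnnihilator]
      intro w hw
      have : f w ∈ U.map f := Submodule.mem_map_of_mem hw
      rwa [hf', Submodule.mem_bot] at this)
  let z : Fin n → ℝ := fun i => φ (Pi.single i 1)
  have hz : ∀ i, z i ≠ 0 := fun i => by simpa using hφ' i
  have hφu : ∀ u : Fin n → ℝ, φ u = ∑ i, u i * z i := by
    intro u
    conv_lhs => rw [pi_eq_sum_univ' u]
    simp [map_sum, z]
  refine ⟨fun R i => c R i * z i, fun l hl hrow hzero => h l hl hrow fun i j hij hadj => ?_, ?_⟩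
  · have h1 := hzero i j hij hadj
    have h2 : ∑ R, ∑ S, c R i * z i * l R S * (c S j * z j) =
        z i * z j * ∑ R, ∑ S, c R i * l R S * c S j := by
      simp only [mul_sum]
      exact sum_congr rfl fun R _ => sum_congr rfl fun S _ => by ring
    rw [h2] at h1
    exact (mul_eq_zero.1 h1).resolve_left (mul_ne_zero (hz i) (hz j))
  · intro x hx
    have h1 : φ (A x) = 0 := by
      rw [Submodule.mem_dualAnnihilator] at hφ
      exact hφ _ ⟨x, by simpa [hσ] using hx, rfl⟩
    rw [hφu] at h1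
    rw [← h1]
    refine sum_congr rfl fun i _ => ?_
    rw [hA, sum_mul]
    exact sum_congr rfl fun R _ => by ring

theorem exists_stressFree {n d : ℕ} {M : Type*} [Fintype M] (G : SimpleGraph (Fin n))
    (hcard : Fintype.card M + d = n) (R₀ : M) (i₀ : Fin n)
    (c : M → Fin n → ℝ) (h : Dom G c)
    (hsum : ∀ x : M → ℝ, ∑ R, x R = 0 → ∑ i, ∑ R, x R * c R i = 0) :
    ∃ p : Fin n → EuclideanSpace ℝ (Fin d), StressFree G p := by
  classical
  let A : (M → ℝ) →ₗ[ℝ] (Fin n → ℝ) :=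
    Fintype.linearCombination ℝ (fun R => c R - c R₀ + Pi.single i₀ 1)
  have hA : ∀ x i, A x i = ∑ R, x R * c R i + (∑ R, x R) * ((Pi.single i₀ 1 : Fin n → ℝ) i - c R₀ i) := by
    intro x i
    simp only [A, Fintype.linearCombination_apply, Finset.sum_apply, Pi.smul_apply, Pi.add_apply,
      Pi.sub_apply, smul_eq_mul, sum_mul, ← sum_add_distrib]
    exact sum_congr rfl fun R _ => by ring
  have hAsum : ∀ x, ∑ i, A x i = ∑ R, x R := by
    intro x
    have h1 := hsum (x - (∑ R, x R) • Pi.single R₀ 1) (by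
      simp [sum_sub_distrib, Pi.single_apply])
    simp only [Pi.sub_apply, Pi.smul_apply, smul_eq_mul, sub_mul, sum_sub_distrib,
      Pi.single_apply, mul_ite, ite_mul, mul_one, mul_zero, zero_mul, sum_ite_eq', mem_univ,
      if_true] at h1
    simp only [hA, sum_add_distrib, mul_sub, sum_sub_distrib, Pi.single_apply, mul_ite, mul_one,
      mul_zero, sum_ite_eq', mem_univ, if_true]
    linarith
  have hA0 : ∀ x, ∑ i, A x i = 0 → ∀ i, A x i = ∑ R, x R * c R i := by
    intro x hx i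
    rw [hA, ← hAsum x, hx]; simp
  have hinj : LinearMap.ker A = ⊥ := by
    rw [LinearMap.ker_eq_bot']
    intro x hx
    have h1 : ∑ i, A x i = 0 := by simp [hx]
    refine h.eq_zero x (by rw [← hAsum, h1]) fun i j _ => ?_
    rw [← hA0 x h1, hx]; simp
  have hfin : Module.finrank ℝ ((Fin n → ℝ) ⧸ LinearMap.range A) =
      Module.finrank ℝ (EuclideanSpace ℝ (Fin d)) := by
    have h1 := Submodule.finrank_quotient_add_finrank (LinearMap.range A)
    rw [LinearMap.finrank_range_of_inj (LinearMap.ker_eq_bot.1 hinj)] at h1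
    simp only [Module.finrank_fintype_fun_eq_card, Fintype.card_fin] at h1
    rw [finrank_euclideanSpace_fin]
    omega
  let e := LinearEquiv.ofFinrankEq _ _ hfin
  let π : (Fin n → ℝ) →ₗ[ℝ] EuclideanSpace ℝ (Fin d) := e.toLinearMap ∘ₗ (LinearMap.range A).mkQ
  have hπ : ∀ u, π u = 0 → ∃ x, A x = u := by
    intro u hu
    have : (LinearMap.range A).mkQ u = 0 := e.injective (by simpa [π] using hu)
    simpa using this
  obtain ⟨g, hg⟩ := A.exists_leftInverse_of_injective hinj
  refine ⟨fun i => π (Pi.single i 1), fun Ω hs hsupp hrow hp => ?_⟩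
  have hπΩ : ∀ i, π (Ω i) = 0 := by
    intro i
    rw [← hp i]
    conv_lhs => rw [pi_eq_sum_univ' (Ω i)]
    simp [map_sum]
  let L : Matrix M (Fin n) ℝ := fun R a => g (Pi.single a 1) R
  have hgL : ∀ u R, g u R = ∑ a, u a * L R a := by
    intro u R
    conv_lhs => rw [pi_eq_sum_univ' u]
    simp [map_sum, L]
  have hAg : ∀ i, A (g (Ω i)) = Ω i := by
    intro i
    obtain ⟨x, hx⟩ := hπ _ (hπΩ i)
    have : g (A x) = x := by simpa using LinearMap.congr_fun hg x
    rw [← hx, this]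
  have hX0 : ∀ i, ∑ R, g (Ω i) R = 0 := fun i => by rw [← hAsum, hAg, hrow]
  have hX : ∀ i j, Ω i j = ∑ R, g (Ω i) R * c R j := by
    intro i j
    rw [← hA0 _ (by rw [hAg, hrow]), hAg]
  have hl := h (fun R S => ∑ a, L R a * g (Ω a) S) ?_ ?_ ?_
  · funext i j
    have h1 : ∑ R, ∑ S, c R j * (∑ a, L R a * g (Ω a) S) * c S i = Ω i j := by
      rw [hX i j]
      refine sum_congr rfl fun R _ => ?_
      rw [hgL, mul_comm, mul_sum]
      simp only [mul_sum, sum_mul]
      rw [sum_comm]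
      refine sum_congr rfl fun a _ => ?_
      rw [hs i a, hX a i, sum_mul, mul_sum]
      exact sum_congr rfl fun S _ => by ring
    rw [← h1]
    have h2 : ∀ R S, ∑ a, L R a * g (Ω a) S = 0 := fun R S => congrFun (congrFun hl R) S
    simp [h2]
  · intro R S
    simp only [hgL, mul_sum]
    rw [sum_comm]
    exact sum_congr rfl fun a _ => sum_congr rfl fun b _ => by rw [hs a b]; ring
  · intro R
    rw [sum_comm]
    simp only [← mul_sum, hX0, mul_zero, sum_const_zero]
  · intro j i hij hadj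
    rw [← hsupp j i hij hadj, hs j i, hX i j]
    refine sum_congr rfl fun R _ => ?_
    rw [hgL, mul_comm, mul_sum]
    simp only [mul_sum, sum_mul]
    rw [sum_comm]
    refine sum_congr rfl fun a _ => ?_
    rw [hs i a, hX a i, sum_mul, mul_sum]
    exact sum_congr rfl fun S _ => by ring

end Pool.Agent.MP_b9449f_co.H8
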